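import Pool.Agent.H12.MICA.Chart

/-!
# The own leaf in the scaled chart

`kpR` is `kp0` with rounded nonconstant coefficients and without the constant term; the exact
height is the value of `kpA` at the position, up to a constant which is a function of the context,
the time and the own leaf, and up to `C 2 ^ (bb - X)`.
-/

set_option autoImplicit false

namespace Pool.MicA

open Finset MvPolynomial
open Pool.Agent.H49.Ent Pool.Agent.H32.Dense Pool.STK Pool.STAT Pool.MIC Pool.MIC.Frm Pool.LBL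
open Pool.BFL (Pl Pb)

/-- Points with the same natural coordinates. -/
theorem pt_agree {g : ℕ → ℕ} {Φ Φ' : ℕ → PN} (hΦ : TriN Φ) (hΦ' : TriN Φ') {z z' : ℕ → ℝ}
    {m : ℕ} (h : ∀ i < m, ∀ b : ℕ → ℝ, eval b (Φ i) + z i / 2 ^ g i =
      eval b (Φ' i) + z' i / 2 ^ g i) : ∀ i < m, pt g Φ z i = pt g Φ' z' i := by
  intro i
  induction i using Nat.strong_induction_on with
  | _ i ih =>
    intro hi
    rw [pt_eq hΦ, pt_eq hΦ', h i hi]
    congr 1
    exact AdxRow.evl_congr fun k hk => ih k (mem_range.1 (hΦ' i hk))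
      (lt_trans (mem_range.1 (hΦ' i hk)) hi)

theorem deg_scl (m z : ℕ) (F : Pl m) : (scl m z F).totalDegree ≤ F.totalDegree := by
  classical
  unfold scl
  rw [bind₁, aeval_def, eval₂_eq]
  refine totalDegree_finsetSum_le fun d hd => ?_
  refine (totalDegree_mul _ _).trans ?_
  have h0 : (algebraMap ℝ (MvPolynomial (Fin m) ℝ) (coeff d F)).totalDegree = 0 := by
    rw [algebraMap_eq, totalDegree_C]
  rw [h0, zero_add]
  refine (totalDegree_finsetProd _ _).trans ?_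
  refine (Finset.sum_le_sum (g := fun j => d j) fun j _ => ?_).trans (le_totalDegree hd)
  refine (totalDegree_pow _ _).trans ?_
  calc d j * _ ≤ d j * 1 := by
        refine Nat.mul_le_mul_left _ ?_
        refine (totalDegree_sub _ _).trans (max_le ?_ ?_)
        · refine (totalDegree_mul _ _).trans ?_
          rw [totalDegree_C, totalDegree_X, zero_add]
        · rw [totalDegree_C]
          exact Nat.zero_le _
    _ = d j := Nat.mul_one _

/-- The difference of the own leaf and of the line side in the natural chart. -/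
noncomputable def P0 (D : NDat2) (n i j i' j' : ℕ) (ω : D.Ω) : Pl (n - 1) :=
  C ((2 : ℝ) ^ D.g i j n) * sl (n - 1) (bind₁ (nuc (D.g i j) (atT (D.X ω 0) (D.Φ i j ω)))
    (D.Ψ i' j' ω n - D.Φ i j ω n))

theorem kp0_eq (D : NDat2) (n z i j i' j' : ℕ) (ω : D.Ω) :
    kp0 D n z i j i' j' ω = scl (n - 1) z (P0 D n i j i' j' ω) := rfl

theorem tri_mx {D : NDat2} {n K J a₀ w₀ z M : ℕ} {lam gam : ℕ → ℝ} {κ C₁ : ℝ} {q : D.Ω → ℝ}
    (hO : D.Ok2 n K J a₀ w₀ z M lam gam κ C₁ q) (i j i' j' : ℕ) (ω : D.Ω) :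
    TriN (D.mx n i j i' j' ω) := by
  intro k
  unfold NDat2.mx
  split_ifs
  · exact hO.G_tri i' j' _ k
  · exact hO.P_tri i j _ k

section

variable {D : NDat2} {n K J a₀ w₀ z M : ℕ} {lam gam : ℕ → ℝ} {κ C₁ : ℝ} {q : D.Ω → ℝ}

/-- The own leaf of `kp` is the slice. -/
theorem kp_eq (hO : D.Ok2 n K J a₀ w₀ z M lam gam κ C₁ q) {i j i' j' : ℕ}
    (hF : Fat D n i j i' j') (ω : D.Ω) :
    D.kp n i j i' j' ω n = rename (fun l : Fin (n - 1) => (l : ℕ) + 1)
      (sl (n - 1) (bind₁ (nuc (D.g i j) (atT (D.X ω 0) (D.Φ i j ω)))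
        (D.Ψ i' j' ω n - D.Φ i j ω n))) := by
  classical
  refine MvPolynomial.funext fun y => ?_
  rw [eval_rename, eval_sl, eval_fr']
  unfold NDat2.kp
  rw [AdxRow.evl_bnd, eval_fr']
  refine AdxRow.evl_congr fun k hk => ?_
  have hk' : k < n := mem_range.1 (AdxRow.vars_sub_le (hO.G_tri i' j' _ n) (hO.P_tri i j _ n) hk)
  refine pt_agree (m := n) (tri_mx hO i j i' j' ω) (tri_atT (hO.P_tri i j _) _) ?_ k hk'
  intro r hr b
  have hmx : D.mx n i j i' j' ω r = D.Φ i j ω r := by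
    unfold NDat2.mx
    rw [if_neg]
    rintro ⟨h1, h2, h3⟩
    exact absurd h3 (not_lt.2 (hF r h1 hr))
  rw [hmx]
  rcases Nat.eq_zero_or_pos r with h0 | h0
  · subst h0
    rw [if_pos rfl, eval_C, ex1_zero]
    unfold atT
    rw [Function.update_self, eval_C]
    have h1 : eval b (D.Φ i j ω 0) = eval (D.X ω) (D.Φ i j ω 0) :=
      AdxRow.evl_congr fun k hk => absurd (hO.P_tri i j _ 0 hk) (by simp)
    rw [h1]
    unfold NDat2.rh
    field_simp
    ring
  · rw [if_neg (by omega)]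
    have hfat : D.fat n i j i' j' r := ⟨h0, hr, hF r h0 hr⟩
    rw [if_pos hfat, eval_X]
    unfold atT
    rw [Function.update_of_ne (by omega)]
    congr 2
    obtain ⟨r', rfl⟩ : ∃ r', r = r' + 1 := ⟨r - 1, by omega⟩
    rw [ex1_succ _ (by omega)]
    rfl

/-- The own shape is the rounded polynomial. -/
theorem kpR_eq (hO : D.Ok2 n K J a₀ w₀ z M lam gam κ C₁ q) {i j i' j' X K₀ : ℕ}
    (hn : 1 ≤ n) (hF : Fat D n i j i' j') (hX : 1 ≤ X) (hg : D.g i j n + X ≤ D.g i' j' n)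
    (ω : D.Ω) :
    kpR D n K₀ z i j i' j' X ω = scl (n - 1) z (Sp K₀ X (rk X (P0 D n i j i' j' ω))) := by
  classical
  unfold kpR
  congr 2
  funext α
  unfold NDat2.ss Pool.MIC.rk P0
  rw [coeff_C_mul]
  have hthn : D.thn n i j i' j' n := ⟨hn, le_rfl, by omega⟩
  have hmin : min (D.g i j n + X) (D.g i' j' n) = D.g i j n + X := min_eq_left hg
  by_cases hα : α = 0
  · subst hα
    rw [if_pos rfl, if_neg]
    rintro ⟨-, h⟩
    apply h
    unfold em
    rw [Finsupp.embDomain_zero]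
  · have hem : em (n - 1) α ≠ 0 := by
      unfold em
      intro h
      exact hα (Finsupp.embDomain_eq_zero.1 h)
    rw [if_neg hα, if_pos ⟨hthn, hem⟩, hmin, kp_eq hO hF ω]
    congr 1
    have h1 : coeff (em (n - 1) α) (rename (fun l : Fin (n - 1) => (l : ℕ) + 1)
        (sl (n - 1) (bind₁ (nuc (D.g i j) (atT (D.X ω 0) (D.Φ i j ω)))
          (D.Ψ i' j' ω n - D.Φ i j ω n)))) = coeff α (sl (n - 1)
        (bind₁ (nuc (D.g i j) (atT (D.X ω 0) (D.Φ i j ω)))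
          (D.Ψ i' j' ω n - D.Φ i j ω n))) := by
      unfold em
      exact coeff_rename_embDomain (⟨fun l : Fin (n - 1) => (l : ℕ) + 1,
        fun _ _ h => Fin.ext (Nat.succ.inj h)⟩ : Fin (n - 1) ↪ ℕ) _ _
    rw [h1, pow_add]
    ring

/-- The degree of the own leaf. -/
theorem deg_P0 (hO : D.Ok2 n K J a₀ w₀ z M lam gam κ C₁ q) (i j i' j' : ℕ) (ω : D.Ω) :
    (P0 D n i j i' j' ω).totalDegree ≤ K * (K + 1) ^ n := by
  unfold P0
  refine (totalDegree_mul _ _).trans ?_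
  rw [totalDegree_C, zero_add]
  refine (deg_sl _ _).trans ?_
  refine deg_fr (tri_atT (hO.P_tri i j _) _) (fun r hr => ?_)
    (AdxRow.vars_sub_le (hO.G_tri i' j' _ n) (hO.P_tri i j _ n))
    ((totalDegree_sub _ _).trans (max_le (hO.G_deg i' j' _ n) (hO.P_deg i j _ n)))
  unfold atT
  by_cases h0 : r = 0
  · subst h0
    rw [Function.update_self, totalDegree_C]
    exact Nat.zero_le _
  · rw [Function.update_of_ne h0]
    exact hO.P_deg i j _ r

/-- The value of the own leaf at the sample. -/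
theorem val_P0 (hO : D.Ok2 n K J a₀ w₀ z M lam gam κ C₁ q) (i j i' j' : ℕ) (ω : D.Ω) :
    eval (fun l : Fin (n - 1) => zt D i j ω (l + 1)) (P0 D n i j i' j' ω) =
      2 ^ D.g i j n * (eval (D.X ω) (D.Ψ i' j' ω n) - eval (D.X ω) (D.Φ i j ω n)) := by
  unfold P0
  rw [map_mul, eval_C, eval_sl, eval_fr', ← map_sub]
  congr 1
  refine AdxRow.evl_congr fun k hk => ?_
  have hk' : k < n := mem_range.1 (AdxRow.vars_sub_le (hO.G_tri i' j' _ n) (hO.P_tri i j _ n) hk)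
  have ht : TriN (atT (D.X ω 0) (D.Φ i j ω)) := tri_atT (hO.P_tri i j _) _
  have h1 := congrFun (pt_nat (g := D.g i j) ht (D.X ω)) k
  rw [← h1]
  refine pt_agree (m := n) ht ht (fun r hr b => ?_) k hk'
  congr 2
  unfold nat
  rcases Nat.eq_zero_or_pos r with h0 | h0
  · subst h0
    rw [ex1_zero]
    unfold atT
    rw [Function.update_self, eval_C, sub_self, mul_zero]
  · obtain ⟨r', rfl⟩ : ∃ r', r = r' + 1 := ⟨r - 1, by omega⟩
    rw [ex1_succ _ (by omega)]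
    unfold zt nat atT
    rw [Function.update_of_ne (by omega)]

/-- The exact height is the value of the own leaf. -/
theorem hgt_P0 (hO : D.Ok2 n K J a₀ w₀ z M lam gam κ C₁ q) {i j i' j' X : ℕ} (hn : 1 ≤ n)
    (hi' : i' ≤ M) (hj' : j' ≤ M) (hg : D.g i j n + X ≤ D.g i' j' n) {ω : D.Ω} (hω : 0 < q ω) :
    |zt D i j ω n - eval (fun l : Fin (n - 1) => zt D i j ω (l + 1)) (P0 D n i j i' j' ω)| ≤
      1 / 2 ^ X := by
  rw [val_P0 hO]
  have e1 : zt D i j ω n - 2 ^ D.g i j n *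
      (eval (D.X ω) (D.Ψ i' j' ω n) - eval (D.X ω) (D.Φ i j ω n)) =
      2 ^ D.g i j n * D.sh i' j' ω n := by
    unfold zt nat NDat2.sh
    ring
  rw [e1, abs_mul, abs_of_pos (by positivity)]
  have h1 := hO.pos i' hi' j' hj' ω hω n hn le_rfl
  calc (2 : ℝ) ^ D.g i j n * |D.sh i' j' ω n| ≤ 2 ^ D.g i j n * (1 / 2 ^ D.g i' j' n) :=
        mul_le_mul_of_nonneg_left h1 (by positivity)
    _ ≤ 2 ^ D.g i j n * (1 / 2 ^ (D.g i j n + X)) := by
        refine mul_le_mul_of_nonneg_left ?_ (by positivity)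
        exact one_div_le_one_div_of_le (by positivity)
          (pow_le_pow_right₀ one_le_two hg)
    _ = 1 / 2 ^ X := by
        rw [pow_add]
        field_simp

/-- The scaled coordinates. -/
theorem up_scl (z : ℕ) (x : ℝ) : 4 * 2 ^ z * up z x - 2 * 2 ^ z = x := by
  unfold up
  field_simp
  ring

/-- Rounding. -/
theorem near_kpR (hO : D.Ok2 n K J a₀ w₀ z M lam gam κ C₁ q) {i j i' j' X K₀ : ℕ}
    (hn : 1 ≤ n) (hi : i ≤ M) (hj : j ≤ M) (hF : Fat D n i j i' j') (hX : 1 ≤ X)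
    (hg : D.g i j n + X ≤ D.g i' j' n) (hK : K * (K + 1) ^ n ≤ K₀) {ω : D.Ω} (hω : 0 < q ω) :
    |eval (fun l : Fin (n - 1) => zt D i j ω (l + 1)) (P0 D n i j i' j' ω) -
      coeff 0 (P0 D n i j i' j' ω) -
      eval (fun l : Fin (n - 1) => up z (zt D i j ω (l + 1)))
        (kpR D n K₀ z i j i' j' X ω)| ≤
      (Pool.Agent.H36.KBX.bx (n - 1) K₀).card * (1 / 2 ^ X) := by
  classical
  rw [kpR_eq hO hn hF hX hg, eval_scl]
  have e1 : (fun l : Fin (n - 1) => 4 * 2 ^ z * up z (zt D i j ω ((l : ℕ) + 1)) - 2 * 2 ^ z) =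
      fun l : Fin (n - 1) => zt D i j ω ((l : ℕ) + 1) := by
    funext l
    exact up_scl z _
  rw [e1]
  obtain ⟨P, hP⟩ : ∃ P, P = P0 D n i j i' j' ω := ⟨_, rfl⟩
  have hPd : P.totalDegree ≤ K₀ := by
    rw [hP]
    exact (deg_P0 hO i j i' j' ω).trans hK
  rw [← hP]
  have h1 := Pool.Agent.H36.KBX.eval_bound (P - C (coeff 0 P) - Sp K₀ X (rk X P))
    (D := K₀) ((totalDegree_sub _ _).trans (max_le ((totalDegree_sub _ _).trans
      (max_le hPd (by rw [totalDegree_C]; exact Nat.zero_le _))) (Sp_deg K₀ X _)))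
    (1 / 2 ^ X) 1 le_rfl (fun α => by
      rw [coeff_sub, coeff_sub, coeff_C]
      by_cases hα : α = 0
      · subst hα
        rw [if_pos rfl, sub_self, zero_sub, abs_neg, coeff_Sp']
        have h2 : rk X P 0 = 0 := by
          unfold Pool.MIC.rk
          rw [if_pos rfl]
        rw [h2]
        split_ifs
        · simp
        · simp
      · rw [if_neg (Ne.symm hα), sub_zero]
        exact coeff_sub_Sp hPd α hα)
    (fun l : Fin (n - 1) => zt D i j ω ((l : ℕ) + 1))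
    (fun l => zt_le hO hi hj hω (by have := l.2; omega))
  rw [map_sub, map_sub, eval_C, one_pow, mul_one] at h1
  exact h1

/-- The scaled coordinates are in the unit interval. -/
theorem up_mem {z : ℕ} {x : ℝ} (hx : |x| ≤ 1) : 0 ≤ up z x ∧ up z x ≤ 1 := by
  have h1 := abs_le.1 hx
  have h2 : (1 : ℝ) ≤ 2 ^ z := one_le_pow₀ one_le_two
  unfold up
  constructor
  · refine div_nonneg ?_ (by positivity)
    linarith
  · rw [div_le_one (by positivity)]
    linarith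

theorem Yp_near (hO : D.Ok2 n K J a₀ w₀ z M lam gam κ C₁ q) {i j : ℕ} (hi : i ≤ M)
    (hj : j ≤ M) {ω : D.Ω} (hω : 0 < q ω) (X : ℕ) (l : Fin (n - 1)) :
    0 ≤ up z (zt D i j ω (l + 1)) - (Yp D n z i j X ω l : ℝ) / 2 ^ X ∧
      up z (zt D i j ω (l + 1)) - (Yp D n z i j X ω l : ℝ) / 2 ^ X ≤ 1 / 2 ^ X ∧
      (Yp D n z i j X ω l : ℝ) / 2 ^ X ≤ 1 := by
  have h1 := up_mem (z := z) (zt_le hO hi hj hω (l := (l : ℕ) + 1) (by have := l.2; omega))
  have h2 : (0 : ℝ) < 2 ^ X := by positivity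
  have h3 : 0 ≤ (2 : ℝ) ^ X * up z (zt D i j ω (l + 1)) := mul_nonneg h2.le h1.1
  have h4 := Nat.floor_le h3
  have h5 := Nat.lt_floor_add_one ((2 : ℝ) ^ X * up z (zt D i j ω (l + 1)))
  have h6 : (Yp D n z i j X ω l : ℝ) = (⌊(2 : ℝ) ^ X * up z (zt D i j ω (l + 1))⌋₊ : ℝ) := rfl
  rw [h6]
  have h7 : (⌊(2 : ℝ) ^ X * up z (zt D i j ω (l + 1))⌋₊ : ℝ) / 2 ^ X ≤
      up z (zt D i j ω (l + 1)) := by
    rw [div_le_iff₀ h2]
    linarith
  refine ⟨by linarith, ?_, h7.trans h1.2⟩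
  rw [sub_le_iff_le_add, ← add_div, le_div_iff₀ h2]
  linarith

/-- **The height at the centre** is a constant of the context, the time and the own leaf, up to
`C 2 ^ bb` units, unless the own shape is truncated. -/
theorem ht_near (hO : D.Ok2 n K J a₀ w₀ z M lam gam κ C₁ q) {i j i' j' X bb K₀ : ℕ}
    (hn : 1 ≤ n) (hi : i ≤ M) (hj : j ≤ M) (hi' : i' ≤ M) (hj' : j' ≤ M)
    (hF : Fat D n i j i' j') (hX : 1 ≤ X) (hg : D.g i j n + X ≤ D.g i' j' n)
    (hK : K * (K + 1) ^ n ≤ K₀) {ω : D.Ω} (hω : 0 < q ω)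
    (hG : Gdk D n K₀ z i j i' j' X bb ω) :
    |(htA D n K₀ z i j i' j' X bb ω : ℝ) - 2 ^ X * (coeff 0 (P0 D n i j i' j' ω) +
      coeff 0 (kpR D n K₀ z i j i' j' X ω))| ≤
      3 + (Pool.Agent.H36.KBX.bx (n - 1) K₀).card +
        (Pool.Agent.H36.KBX.bx (n - 1) K₀).card * (n * K₀ * 2 ^ bb) := by
  classical
  have h2 : (0 : ℝ) < 2 ^ X := by positivity
  obtain ⟨y, hy⟩ : ∃ y : Fin (n - 1) → ℝ, 
    y = fun l : Fin (n - 1) => up z (zt D i j ω ((l : ℕ) + 1)) := ⟨_, rfl⟩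
  obtain ⟨y', hy'⟩ : ∃ y' : Fin (n - 1) → ℝ, 
    y' = fun l : Fin (n - 1) => (Yp D n z i j X ω l : ℝ) / 2 ^ X := ⟨_, rfl⟩
  obtain ⟨R, hR⟩ : ∃ R, R = kpR D n K₀ z i j i' j' X ω := ⟨_, rfl⟩
  have hA : kpA D n K₀ z i j i' j' X bb ω = R - C (coeff 0 R) := by
    unfold kpA
    rw [if_pos hG, hR]
  have hRd : R.totalDegree ≤ K₀ := by
    rw [hR, kpR_eq hO hn hF hX hg]
    exact (deg_scl _ _ _).trans (Sp_deg _ _ _)
  have a1 := hgt_P0 hO hn hi' hj' hg hω
  have a2 := near_kpR hO hn hi hj hF hX hg hK hω (K₀ := K₀)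
  rw [← hR] at a2
  have a3 : |eval y R - eval y' R| ≤
      (Pool.Agent.H36.KBX.bx (n - 1) K₀).card * (((n - 1 : ℕ) : ℝ) * K₀ * (2 ^ bb * (1 / 2 ^ X))) := by
    refine pl_lip R hRd (by positivity) (fun α hα => by rw [hR]; exact hG α hα) (by positivity)
      ?_ ?_ ?_
    · intro l
      rw [hy]
      have := up_mem (z := z) (zt_le hO hi hj hω (l := (l : ℕ) + 1) (by have := l.2; omega))
      rw [abs_le]
      constructor <;> linarith
    · intro l
      rw [hy', abs_of_nonneg (by positivity)]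
      exact (Yp_near hO hi hj hω X l).2.2
    · intro l
      rw [hy, hy']
      have := Yp_near hO hi hj hω X l
      rw [abs_of_nonneg this.1]
      exact this.2.1
  have b1 := Int.floor_le ((2 : ℝ) ^ X * zt D i j ω n)
  have b2 := Int.lt_floor_add_one ((2 : ℝ) ^ X * zt D i j ω n)
  have b3 := Int.floor_le ((2 : ℝ) ^ X * (eval y' R - coeff 0 R))
  have b4 := Int.lt_floor_add_one ((2 : ℝ) ^ X * (eval y' R - coeff 0 R))
  have e1 : (htA D n K₀ z i j i' j' X bb ω : ℝ) = (⌊(2 : ℝ) ^ X * zt D i j ω n⌋ : ℝ) -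
      (⌊(2 : ℝ) ^ X * (eval y' R - coeff 0 R)⌋ : ℝ) := by
    unfold htA nuA
    rw [hA, map_sub, eval_C, ← hy']
    push_cast
    rfl
  rw [e1, ← hR]
  obtain ⟨p, hp⟩ : ∃ p, p = eval (fun l : Fin (n - 1) => zt D i j ω (l + 1))
    (P0 D n i j i' j' ω) := ⟨_, rfl⟩
  rw [← hp] at a1 a2
  rw [← hy] at a2
  have c1 := mul_le_mul_of_nonneg_left a1 h2.le
  have c2 := mul_le_mul_of_nonneg_left a2 h2.le
  have c3 := mul_le_mul_of_nonneg_left a3 h2.le
  rw [← abs_of_pos h2, ← abs_mul, abs_of_pos h2] at c1 c2 c3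
  have d1 : (2 : ℝ) ^ X * (1 / 2 ^ X) = 1 := by field_simp
  have d2 : (2 : ℝ) ^ X * ((Pool.Agent.H36.KBX.bx (n - 1) K₀).card * (1 / 2 ^ X)) =
      (Pool.Agent.H36.KBX.bx (n - 1) K₀).card := by field_simp
  have d3 : (2 : ℝ) ^ X * ((Pool.Agent.H36.KBX.bx (n - 1) K₀).card *
      (((n - 1 : ℕ) : ℝ) * K₀ * (2 ^ bb * (1 / 2 ^ X)))) =
      (Pool.Agent.H36.KBX.bx (n - 1) K₀).card * (((n - 1 : ℕ) : ℝ) * K₀ * 2 ^ bb) := by
    field_simp
  rw [d1] at c1
  rw [d2] at c2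
  rw [d3] at c3
  have d4 : (Pool.Agent.H36.KBX.bx (n - 1) K₀).card * (((n - 1 : ℕ) : ℝ) * K₀ * 2 ^ bb) ≤
      (Pool.Agent.H36.KBX.bx (n - 1) K₀).card * ((n : ℝ) * K₀ * 2 ^ bb) := by
    have : ((n - 1 : ℕ) : ℝ) ≤ n := by exact_mod_cast Nat.sub_le n 1
    gcongr
  have g1 := abs_le.1 c1
  have g2 := abs_le.1 c2
  have g3 := abs_le.1 c3
  rw [abs_le]
  constructor <;> nlinarith

end

end Pool.MicA
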