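import Pool.Agent.H46.MicA.Defs
import Pool.Agent.H35.SYS.Nat

/-!
# The two natural charts of a cell

The natural coordinates over the visible side and over the line side of the labels at `(i, j)`,
at the exact time, are bi-Lipschitz functions of each other, for the samples of one context and
one time. The own leaf `kpR` is the rounded polynomial of `kp0`.
-/

set_option autoImplicit false

namespace Pool.MicA

open Finset MvPolynomial
open Pool.Agent.H49.Ent Pool.Agent.H32.Dense Pool.STK Pool.STAT Pool.MIC Pool.MIC.Frm Pool.LBL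
open Pool.BFL (Pl Pb)

/-! ### Lipschitz bounds -/

/-- A polynomial bounded on the unit box is Lipschitz on larger boxes. -/
theorem lip_box (n K : ℕ) (B : ℝ) (hB : 1 ≤ B) : ∃ C : ℝ, 1 ≤ C ∧
    ∀ (F : PN) (S ε : ℝ) (z z' : ℕ → ℝ), F.vars ⊆ range n → F.totalDegree ≤ K → 0 ≤ ε →
      (∀ z : ℕ → ℝ, (∀ i < n, |z i| ≤ 1) → |eval z F| ≤ S) →
      (∀ i < n, |z i| ≤ B) → (∀ i < n, |z' i| ≤ B) → (∀ i < n, |z i - z' i| ≤ ε) →
      |eval z F - eval z' F| ≤ C * S * ε := by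
  obtain ⟨C, hC, h⟩ := Pool.SYS35.nrm_of_sup n K
  have hBK : 1 ≤ B ^ K := one_le_pow₀ hB
  refine ⟨(K + 1) * B ^ K * C, ?_, ?_⟩
  · have h1 : (1 : ℝ) ≤ K + 1 := by
      have : (0 : ℝ) ≤ K := Nat.cast_nonneg K
      linarith
    exact one_le_mul_of_one_le_of_one_le (one_le_mul_of_one_le_of_one_le h1 hBK) hC
  intro F S ε z z' hv hK hε hS hz hz' hd
  have h1 := h (fun _ => 1) 1 F S one_pos hv hK (fun b hb => hS b fun i hi => by
    have := hb i hi
    rwa [one_pow] at this)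
  have hS0 : 0 ≤ S := (abs_nonneg _).trans (hS (fun _ => 0) fun i _ => by
    rw [abs_zero]
    exact zero_le_one)
  have h2 := Pool.SYS35.lip_eval (d := fun _ => 1) (fun _ => le_rfl) (F := F) (D := K)
    (fun k hk => by
      refine le_trans (le_of_eq ?_) ((le_totalDegree hk).trans hK)
      rw [Finsupp.weight_apply]
      refine Finset.sum_congr rfl fun j _ => ?_
      change k j • 1 = k j
      rw [smul_eq_mul, mul_one]) (ρ := 1) (B := B) (ε := ε) one_pos hB hε (Y := z) (Y' := z')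
    (fun i hi => by
      rw [pow_one, mul_one]
      exact hz i (mem_range.1 (hv hi)))
    (fun i hi => by
      rw [pow_one, mul_one]
      exact hz' i (mem_range.1 (hv hi)))
    (fun i hi => by
      rw [pow_one, one_mul]
      exact hd i (mem_range.1 (hv hi)))
  refine h2.trans ?_
  have hK0 : (0 : ℝ) ≤ K := Nat.cast_nonneg K
  have hB0 : 0 ≤ B ^ K := by positivity
  have h3 : (K : ℝ) * B ^ K * nrm (fun _ => 1) 1 F ≤ (K + 1) * B ^ K * (C * S) :=
    mul_le_mul (mul_le_mul_of_nonneg_right (by linarith) hB0) h1 (by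
      unfold nrm
      positivity) (by positivity)
  calc _ ≤ (K + 1) * B ^ K * (C * S) * ε := mul_le_mul_of_nonneg_right h3 hε
    _ = _ := by ring

/-- The same on a slice of a natural box. -/
theorem lip_sl (n K : ℕ) (B : ℝ) (hB : 1 ≤ B) : ∃ C : ℝ, 1 ≤ C ∧
    ∀ (g : ℕ → ℕ) (Ψ : ℕ → PN) (F : PN) (S ε t : ℝ) (b b' : ℕ → ℝ), TriN Ψ →
      (∀ i < n, (Ψ i).totalDegree ≤ K) → F.vars ⊆ range n → F.totalDegree ≤ K → 0 ≤ ε →
      (∀ b : ℕ → ℝ, b 0 = t → (∀ i, 1 ≤ i → i < n → |nat g Ψ b i| ≤ 1) → |eval b F| ≤ S) →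
      b 0 = t → b' 0 = t → (∀ i, 1 ≤ i → i < n → |nat g Ψ b i| ≤ B) →
      (∀ i, 1 ≤ i → i < n → |nat g Ψ b' i| ≤ B) →
      (∀ i, 1 ≤ i → i < n → |nat g Ψ b i - nat g Ψ b' i| ≤ ε) →
      |eval b F - eval b' F| ≤ C * S * ε := by
  obtain ⟨C, hC, h⟩ := lip_box n (K * (K + 1) ^ n) B hB
  refine ⟨C, hC, ?_⟩
  intro g Ψ F S ε t b b' hΨ dΨ hv hK hε hS hb hb' hB1 hB2 hd
  have ht : TriN (atT t Ψ) := tri_atT hΨ t
  have hdt : ∀ i < n, (atT t Ψ i).totalDegree ≤ K := by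
    intro i hi
    unfold atT
    by_cases h0 : i = 0
    · subst h0
      rw [Function.update_self, totalDegree_C]
      exact Nat.zero_le _
    · rw [Function.update_of_ne h0]
      exact dΨ i hi
  have hn : ∀ (b : ℕ → ℝ) (i : ℕ), 1 ≤ i → nat g (atT t Ψ) b i = nat g Ψ b i := by
    intro b i hi
    unfold nat atT
    rw [Function.update_of_ne (by omega)]
  have hn0 : ∀ b : ℕ → ℝ, nat g (atT t Ψ) b 0 = 2 ^ g 0 * (b 0 - t) := by
    intro b
    unfold nat atT
    rw [Function.update_self, eval_C]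
  obtain ⟨F', hF'⟩ : ∃ F' : PN, F' = bind₁ (fun k => if k = 0 then 0 else X k)
    (bind₁ (nuc g (atT t Ψ)) F) := ⟨_, rfl⟩
  have hev : ∀ z : ℕ → ℝ, eval z F' = eval (pt g (atT t Ψ) (Function.update z 0 0)) F := by
    intro z
    rw [hF', AdxRow.evl_bnd, ← eval_fr']
    congr 1
    congr 1
    funext k
    by_cases hk : k = 0
    · subst hk
      rw [if_pos rfl, map_zero, Function.update_self]
    · rw [if_neg hk, eval_X, Function.update_of_ne hk]
  have hpt : ∀ z : ℕ → ℝ, (pt g (atT t Ψ) (Function.update z 0 0)) 0 = t := by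
    intro z
    have h1 := hn0 (pt g (atT t Ψ) (Function.update z 0 0))
    rw [nat_pt ht, Function.update_self] at h1
    have h2 : (2 : ℝ) ^ g 0 ≠ 0 := by positivity
    rcases mul_eq_zero.1 h1.symm with h3 | h3
    · exact absurd h3 h2
    · linarith
  have hb0 : ∀ b : ℕ → ℝ, b 0 = t → eval b F = eval (nat g (atT t Ψ) b) F' := by
    intro b hb
    have h1 : Function.update (nat g (atT t Ψ) b) 0 0 = nat g (atT t Ψ) b := by
      funext k
      by_cases hk : k = 0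
      · subst hk
        rw [Function.update_self, hn0, hb, sub_self, mul_zero]
      · rw [Function.update_of_ne hk]
    rw [hev, h1, pt_nat ht]
  have hv' : F'.vars ⊆ range n := by
    rw [hF']
    refine AdxRow.vars_bnd (m := n) (vars_fr ht hv) fun k hk => ?_
    split_ifs
    · rw [vars_0]
      exact Finset.empty_subset _
    · exact AdxRow.vars_X_le hk
  have hd' : F'.totalDegree ≤ K * (K + 1) ^ n := by
    rw [hF']
    refine (Dgb.deg_bind (B := 1) fun k _ => ?_).trans ?_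
    · split_ifs
      · rw [totalDegree_zero]
        exact Nat.zero_le _
      · exact (totalDegree_X _).le
    · rw [mul_one]
      exact deg_fr ht hdt hv hK
  rw [hb0 b hb, hb0 b' hb']
  refine h F' S ε _ _ hv' hd' hε ?_ ?_ ?_ ?_
  · intro z hz
    rw [hev]
    refine hS _ (hpt z) fun i h1 h2 => ?_
    rw [← hn _ i h1, nat_pt ht, Function.update_of_ne (by omega)]
    exact hz i h2
  · intro i hi
    rcases Nat.eq_zero_or_pos i with h0 | h0
    · subst h0
      rw [hn0, hb, sub_self, mul_zero, abs_zero]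
      linarith
    · rw [hn _ i h0]
      exact hB1 i h0 hi
  · intro i hi
    rcases Nat.eq_zero_or_pos i with h0 | h0
    · subst h0
      rw [hn0, hb', sub_self, mul_zero, abs_zero]
      linarith
    · rw [hn _ i h0]
      exact hB2 i h0 hi
  · intro i hi
    rcases Nat.eq_zero_or_pos i with h0 | h0
    · subst h0
      rw [hn0, hn0, hb, hb', sub_self, abs_zero]
      exact hε
    · rw [hn _ i h0, hn _ i h0]
      exact hd i h0 hi

theorem prod_lip {ι : Type} (s : Finset ι) (k : ι → ℕ) {a a' : ι → ℝ} {ε : ℝ} (hε : 0 ≤ ε)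
    (ha : ∀ j ∈ s, |a j| ≤ 1) (ha' : ∀ j ∈ s, |a' j| ≤ 1) (h : ∀ j ∈ s, |a j - a' j| ≤ ε) :
    |∏ j ∈ s, a j ^ k j - ∏ j ∈ s, a' j ^ k j| ≤ (∑ j ∈ s, k j : ℕ) * ε := by
  classical
  induction s using Finset.induction_on with
  | empty => simp
  | insert i s hi ih =>
    rw [Finset.prod_insert hi, Finset.prod_insert hi, Finset.sum_insert hi]
    have ih' := ih (fun j hj => ha j (Finset.mem_insert_of_mem hj))
      (fun j hj => ha' j (Finset.mem_insert_of_mem hj))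
      (fun j hj => h j (Finset.mem_insert_of_mem hj))
    have h1 := Pool.SYS35.pow_diff zero_le_one hε (ha i (Finset.mem_insert_self i s))
      (ha' i (Finset.mem_insert_self i s)) (by
        rw [one_mul]
        exact h i (Finset.mem_insert_self i s)) (k i)
    rw [one_pow, mul_one] at h1
    have h2 : |∏ j ∈ s, a' j ^ k j| ≤ 1 := by
      rw [Finset.abs_prod]
      refine Finset.prod_le_one (fun _ _ => abs_nonneg _) fun j hj => ?_
      rw [abs_pow]
      exact pow_le_one₀ (abs_nonneg _) (ha' j (Finset.mem_insert_of_mem hj))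
    have h4 : a i ^ k i * ∏ j ∈ s, a j ^ k j - a' i ^ k i * ∏ j ∈ s, a' j ^ k j =
        a i ^ k i * (∏ j ∈ s, a j ^ k j - ∏ j ∈ s, a' j ^ k j) +
          (a i ^ k i - a' i ^ k i) * ∏ j ∈ s, a' j ^ k j := by ring
    rw [h4]
    refine (abs_add_le _ _).trans ?_
    rw [abs_mul, abs_mul, abs_pow]
    have h5 : |a i| ^ k i ≤ 1 := pow_le_one₀ (abs_nonneg _) (ha i (Finset.mem_insert_self i s))
    have h6 : |a i| ^ k i * |∏ j ∈ s, a j ^ k j - ∏ j ∈ s, a' j ^ k j| ≤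
        1 * ((∑ j ∈ s, k j : ℕ) * ε) :=
      mul_le_mul h5 ih' (abs_nonneg _) zero_le_one
    have h7 : |a i ^ k i - a' i ^ k i| * |∏ j ∈ s, a' j ^ k j| ≤ k i * ε * 1 :=
      mul_le_mul h1 h2 (abs_nonneg _) (by positivity)
    push_cast at h6 ⊢
    linarith

/-- A polynomial with bounded nonconstant coefficients is Lipschitz on the unit box. -/
theorem pl_lip {k D : ℕ} (P : Pl k) (hP : P.totalDegree ≤ D) {c ε : ℝ} (hc0 : 0 ≤ c)
    (hc : ∀ α, α ≠ 0 → |coeff α P| ≤ c) (hε : 0 ≤ ε) {y y' : Fin k → ℝ}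
    (hy : ∀ i, |y i| ≤ 1) (hy' : ∀ i, |y' i| ≤ 1) (hyy : ∀ i, |y i - y' i| ≤ ε) :
    |eval y P - eval y' P| ≤ (Pool.Agent.H36.KBX.bx k D).card * (k * D * (c * ε)) := by
  classical
  rw [eval_eq', eval_eq', ← Finset.sum_sub_distrib]
  refine (Finset.abs_sum_le_sum_abs _ _).trans ?_
  have h1 : ∀ α ∈ P.support, |coeff α P * ∏ i, y i ^ α i - coeff α P * ∏ i, y' i ^ α i| ≤
      k * D * (c * ε) := by
    intro α hα
    rw [← mul_sub, abs_mul]
    by_cases h0 : α = 0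
    · subst h0
      simp only [Finsupp.coe_zero, Pi.zero_apply, pow_zero, Finset.prod_const_one, sub_self,
        abs_zero, mul_zero]
      positivity
    · have h2 := prod_lip univ (fun i => α i) hε (fun i _ => hy i) (fun i _ => hy' i)
        (fun i _ => hyy i)
      have h3 : (∑ i : Fin k, α i) ≤ k * D := by
        have h4 := Pool.Agent.H36.KBX.mem_bx.1 (Pool.Agent.H36.KBX.support_bx P hP hα)
        refine (Finset.sum_le_card_nsmul univ (fun i => α i) D fun i _ => h4 i).trans ?_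
        simp
      have h3' : ((∑ i : Fin k, α i : ℕ) : ℝ) ≤ k * D := by exact_mod_cast h3
      calc |coeff α P| * |∏ i, y i ^ α i - ∏ i, y' i ^ α i| ≤
          c * ((∑ i : Fin k, α i : ℕ) * ε) := mul_le_mul (hc α h0) h2 (abs_nonneg _) hc0
        _ ≤ c * (k * D * ε) := by
            refine mul_le_mul_of_nonneg_left ?_ hc0
            exact mul_le_mul_of_nonneg_right h3' hε
        _ = _ := by ring
  refine (Finset.sum_le_sum h1).trans ?_
  rw [Finset.sum_const, nsmul_eq_mul]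
  refine mul_le_mul_of_nonneg_right ?_ (by positivity)
  exact_mod_cast Finset.card_le_card (Pool.Agent.H36.KBX.support_bx P hP)

/-! ### The two charts -/

/-- The natural coordinates of the sample over the visible side. -/
noncomputable def zs (D : NDat2) (i j : ℕ) (ω : D.Ω) : ℕ → ℝ := nat (D.g i j) (D.Ψ i j ω) (D.X ω)

section

variable {D : NDat2} {n K J a₀ w₀ z M : ℕ} {lam gam : ℕ → ℝ} {κ C₁ : ℝ} {q : D.Ω → ℝ}

theorem zs_le (hO : D.Ok2 n K J a₀ w₀ z M lam gam κ C₁ q) {i j : ℕ} (hi : i ≤ M) (hj : j ≤ M)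
    {ω : D.Ω} (hω : 0 < q ω) {l : ℕ} (h1 : 1 ≤ l) (h2 : l ≤ n) : |zs D i j ω l| ≤ 1 := by
  have h := hO.pos i hi j hj ω hω l h1 h2
  unfold zs nat
  rw [abs_mul, abs_of_pos (by positivity)]
  have h3 : |D.X ω l - eval (D.X ω) (D.Ψ i j ω l)| ≤ 1 / 2 ^ D.g i j l := h
  calc _ ≤ (2 : ℝ) ^ D.g i j l * (1 / 2 ^ D.g i j l) :=
        mul_le_mul_of_nonneg_left h3 (by positivity)
    _ = 1 := by field_simp

theorem zt_le (hO : D.Ok2 n K J a₀ w₀ z M lam gam κ C₁ q) {i j : ℕ} (hi : i ≤ M) (hj : j ≤ M)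
    {ω : D.Ω} (hω : 0 < q ω) {l : ℕ} (h2 : l ≤ n) : |zt D i j ω l| ≤ 1 := by
  have h := hO.hgt i hi j hj ω hω l h2
  unfold zt nat
  rw [abs_mul, abs_of_pos (by positivity)]
  have h3 : |D.X ω l - eval (D.X ω) (D.Φ i j ω l)| ≤ 1 / 2 ^ D.g i j l := h
  calc _ ≤ (2 : ℝ) ^ D.g i j l * (1 / 2 ^ D.g i j l) :=
        mul_le_mul_of_nonneg_left h3 (by positivity)
    _ = 1 := by field_simp

/-- The sides agree on the slice of the natural box. -/
theorem agr_sl (hO : D.Ok2 n K J a₀ w₀ z M lam gam κ C₁ q) {i j : ℕ} (hi : i ≤ M) (hj : j ≤ M)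
    {ω : D.Ω} (hω : 0 < q ω) {l : ℕ} (h1 : 1 ≤ l) (h2 : l ≤ n) (b : ℕ → ℝ)
    (hb : b 0 = D.X ω 0) (h : ∀ r, 1 ≤ r → r < l → |nat (D.g i j) (D.Ψ i j ω) b r| ≤ 1) :
    |eval b (D.Ψ i j ω l - D.Φ i j ω l)| ≤ 1 / 2 ^ D.g i j l := by
  rw [map_sub]
  refine hO.agr i hi j hj ω hω l h1 h2 b ⟨?_, fun r h3 h4 => ?_⟩
  · rw [hb, sub_self, abs_zero]
    positivity
  · have h5 := h r h3 h4
    unfold nat at h5
    rw [abs_mul, abs_of_pos (by positivity)] at h5
    rw [le_div_iff₀ (by positivity)]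
    linarith

theorem zt_zs {i j : ℕ} (ω : D.Ω) (l : ℕ) : zt D i j ω l = zs D i j ω l +
    2 ^ D.g i j l * eval (D.X ω) (D.Ψ i j ω l - D.Φ i j ω l) := by
  unfold zt zs nat
  rw [map_sub]
  ring

/-- Samples of one context and one time. -/
theorem same (hO : D.Ok2 n K J a₀ w₀ z M lam gam κ C₁ q) {i j : ℕ} (hi : i ≤ M) (hj : j ≤ M)
    {ω ω' : D.Ω} (hω : 0 < q ω) (hω' : 0 < q ω') (hc : D.c i j ω = D.c i j ω')
    (hT : D.T ω = D.T ω') : D.Φ i j ω = D.Φ i j ω' ∧ D.Ψ i j ω = D.Ψ i j ω' ∧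
      D.X ω 0 = D.X ω' 0 := by
  refine ⟨?_, ?_, ?_⟩
  · unfold NDat2.Φ
    rw [hc]
  · unfold NDat2.Ψ
    rw [hO.s_c i hi j hj ω ω' hω hω' (Prod.ext hc hT)]
  · rw [hO.X_zero, hO.X_zero, hT]

end

/-- **The charts are bi-Lipschitz.** -/
theorem charts (n K : ℕ) : ∃ C : ℝ, 1 ≤ C ∧
    ∀ {D : NDat2} {J a₀ w₀ z M i j : ℕ} {lam gam : ℕ → ℝ} {κ C₁ : ℝ} {q : D.Ω → ℝ},
      D.Ok2 n K J a₀ w₀ z M lam gam κ C₁ q → i ≤ M → j ≤ M → ∀ {ω ω' : D.Ω}, 0 < q ω →
      0 < q ω' → D.c i j ω = D.c i j ω' → D.T ω = D.T ω' → ∀ {l : ℕ} {ε : ℝ}, 1 ≤ l → l ≤ n →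
      0 ≤ ε →
      ((∀ r, 1 ≤ r → r ≤ l → |zs D i j ω r - zs D i j ω' r| ≤ ε) →
        |zt D i j ω l - zt D i j ω' l| ≤ C * ε) ∧
      ((∀ r, 1 ≤ r → r ≤ l → |zt D i j ω r - zt D i j ω' r| ≤ ε) →
        |zs D i j ω l - zs D i j ω' l| ≤ C * ε) := by
  obtain ⟨C, hC, h⟩ : ∃ C : ℝ, 1 ≤ C ∧ ∀ l ≤ n, ∀ (g : ℕ → ℕ) (Ψ : ℕ → PN) (F : PN)
      (S ε t : ℝ) (b b' : ℕ → ℝ), TriN Ψ →
      (∀ i < l, (Ψ i).totalDegree ≤ K) → F.vars ⊆ range l → F.totalDegree ≤ K → 0 ≤ ε →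
      (∀ b : ℕ → ℝ, b 0 = t → (∀ i, 1 ≤ i → i < l → |nat g Ψ b i| ≤ 1) → |eval b F| ≤ S) →
      b 0 = t → b' 0 = t → (∀ i, 1 ≤ i → i < l → |nat g Ψ b i| ≤ 1) →
      (∀ i, 1 ≤ i → i < l → |nat g Ψ b' i| ≤ 1) →
      (∀ i, 1 ≤ i → i < l → |nat g Ψ b i - nat g Ψ b' i| ≤ ε) →
      |eval b F - eval b' F| ≤ C * S * ε := by
    have h0 := fun l : ℕ => lip_sl l K 1 le_rfl
    choose C hC h using h0
    refine ⟨∑ l ∈ range (n + 1), C l, ?_, ?_⟩
    · refine (hC 0).trans (Finset.single_le_sum (f := C) (fun l _ => by linarith [hC l])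
        (mem_range.2 (by omega)))
    · intro l hl g Ψ F S ε t b b' a1 a2 a3 a4 a5 a6 a7 a8 a9 a10 a11
      refine (h l g Ψ F S ε t b b' a1 a2 a3 a4 a5 a6 a7 a8 a9 a10 a11).trans ?_
      have hS0 : 0 ≤ S := (abs_nonneg _).trans (a6 b a7 a9)
      refine mul_le_mul_of_nonneg_right (mul_le_mul_of_nonneg_right ?_ hS0) a5
      exact Finset.single_le_sum (f := C) (fun l _ => by linarith [hC l])
        (mem_range.2 (by omega))
  have hD1 : 1 ≤ (C + 1) ^ (n + 1) := one_le_pow₀ (by linarith)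
  refine ⟨(C + 1) ^ (n + 1), hD1, ?_⟩
  intro D J a₀ w₀ z M i j lam gam κ C₁ q hO hi hj ω ω' hω hω' hc hT l ε h1 h2 hε
  obtain ⟨eΦ, eΨ, e0⟩ := same hO hi hj hω hω' hc hT
  -- the difference of the two charts
  have hdif : ∀ m, 1 ≤ m → m ≤ n → ∀ δ : ℝ, 0 ≤ δ →
      (∀ r, 1 ≤ r → r < m → |zs D i j ω r - zs D i j ω' r| ≤ δ) →
      |(zt D i j ω m - zt D i j ω' m) - (zs D i j ω m - zs D i j ω' m)| ≤ C * δ := by
    intro m m1 m2 δ hδ hr
    have e1 : (zt D i j ω m - zt D i j ω' m) - (zs D i j ω m - zs D i j ω' m) =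
        2 ^ D.g i j m * (eval (D.X ω) (D.Ψ i j ω m - D.Φ i j ω m) -
          eval (D.X ω') (D.Ψ i j ω m - D.Φ i j ω m)) := by
      rw [zt_zs ω m, zt_zs ω' m, ← eΦ, ← eΨ]
      ring
    rw [e1, abs_mul, abs_of_pos (show (0 : ℝ) < 2 ^ D.g i j m by positivity)]
    have h3 := h m m2 (D.g i j) (D.Ψ i j ω) (D.Ψ i j ω m - D.Φ i j ω m) (1 / 2 ^ D.g i j m) δ
      (D.X ω 0) (D.X ω) (D.X ω') (hO.G_tri i j _) (fun r _ => hO.G_deg i j _ r)
      (AdxRow.vars_sub_le (hO.G_tri i j _ m) (hO.P_tri i j _ m))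
      ((totalDegree_sub _ _).trans (max_le (hO.G_deg i j _ m) (hO.P_deg i j _ m))) hδ
      (fun b hb hb' => agr_sl hO hi hj hω m1 m2 b hb hb') rfl e0.symm
      (fun r r1 r2 => zs_le hO hi hj hω r1 (by omega))
      (fun r r1 r2 => by
        rw [eΨ]
        exact zs_le hO hi hj hω' r1 (by omega))
      (fun r r1 r2 => by
        have := hr r r1 r2
        unfold zs at this
        rwa [← eΨ] at this)
    calc (2 : ℝ) ^ D.g i j m * _ ≤ 2 ^ D.g i j m * (C * (1 / 2 ^ D.g i j m) * δ) :=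
          mul_le_mul_of_nonneg_left h3 (by positivity)
      _ = C * δ := by field_simp
  constructor
  · intro hr
    have h3 := hdif l h1 h2 ε hε (fun r r1 r2 => hr r r1 r2.le)
    have h4 := hr l h1 le_rfl
    have h5 : |zt D i j ω l - zt D i j ω' l| ≤ (C + 1) * ε := by
      have e1 : zt D i j ω l - zt D i j ω' l =
          ((zt D i j ω l - zt D i j ω' l) - (zs D i j ω l - zs D i j ω' l)) +
          (zs D i j ω l - zs D i j ω' l) := by ring
      rw [e1]
      refine (abs_add_le _ _).trans ?_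
      linarith
    refine h5.trans (mul_le_mul_of_nonneg_right ?_ hε)
    exact le_self_pow₀ (by linarith) (by omega)
  · intro hr
    have main : ∀ m, 1 ≤ m → m ≤ l → |zs D i j ω m - zs D i j ω' m| ≤ (C + 1) ^ m * ε := by
      intro m
      induction m using Nat.strong_induction_on with
      | _ m ih =>
        intro m1 m2
        have h3 := hdif m m1 (by omega) ((C + 1) ^ (m - 1) * ε) (by positivity)
          (fun r r1 r2 => (ih r r2 r1 (by omega)).trans (mul_le_mul_of_nonneg_right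
            (pow_le_pow_right₀ (by linarith) (by omega)) hε))
        have h4 := hr m m1 m2
        have e1 : zs D i j ω m - zs D i j ω' m =
            -((zt D i j ω m - zt D i j ω' m) - (zs D i j ω m - zs D i j ω' m)) +
            (zt D i j ω m - zt D i j ω' m) := by ring
        rw [e1]
        refine (abs_add_le _ _).trans ?_
        rw [abs_neg]
        have h5 : (1 : ℝ) ≤ (C + 1) ^ (m - 1) := one_le_pow₀ (by linarith)
        have h6 : (C + 1) ^ m = (C + 1) * (C + 1) ^ (m - 1) := by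
          rw [← pow_succ']
          congr 1
          omega
        rw [h6]
        nlinarith
    refine (main l h1 le_rfl).trans (mul_le_mul_of_nonneg_right ?_ hε)
    exact pow_le_pow_right₀ (by linarith) (by omega)

end Pool.MicA
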