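import Pool.Agent.H12.MICA.EntC
import Pool.Agent.H12.MICA.Leaf
import Pool.Agent.H46.MicA.Stm

/-!
# From a cell to one context: entropy

`ent_stmt : EntStmt`.
-/

set_option autoImplicit false

namespace Pool.MicA

open Finset MvPolynomial
open Pool.Agent.H49.Ent Pool.Agent.H32.Dense Pool.STK Pool.STAT Pool.MIC Pool.MIC.Frm Pool.LBL
open Pool.BFL (Pl Pb)

/-! ### Floors -/

theorem log_seven : Real.log 7 ≤ 3 := by
  have h1 : Real.log 7 ≤ Real.log 8 := Real.log_le_log (by norm_num) (by norm_num)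
  have h2 : Real.log 8 = 3 * Real.log 2 := by
    rw [show (8 : ℝ) = 2 ^ 3 by norm_num, Real.log_pow]
    norm_num
  have h3 := Real.log_two_lt_d9
  linarith

theorem floor_eq_le {a b : ℝ} (h : ⌊a⌋ = ⌊b⌋) : |a - b| ≤ 1 :=
  (Int.abs_sub_lt_one_of_floor_eq_floor h).le

theorem floor_near {a b δ : ℝ} (h : |a - b| ≤ δ) : |((⌊a⌋ - ⌊b⌋ : ℤ) : ℝ)| ≤ δ + 1 := by
  have h1 := Int.floor_le a
  have h2 := Int.lt_floor_add_one a
  have h3 := Int.floor_le b
  have h4 := Int.lt_floor_add_one b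
  have h5 := abs_le.1 h
  push_cast
  rw [abs_le]
  constructor <;> linarith

section

variable {D : NDat2} {n K J a₀ w₀ z M : ℕ} {lam gam : ℕ → ℝ} {κ C₁ : ℝ} {q : D.Ω → ℝ}

theorem vd_eq (i j X : ℕ) (ω : D.Ω) (l : Fin (n - 1)) :
    D.vd n i j X ω l = ⌊(2 : ℝ) ^ X * zs D i j ω (l + 1)⌋ := by
  unfold NDat2.vd zs nat NDat2.sh
  congr 1
  rw [pow_add]
  ring

theorem nd_eq (i j X : ℕ) (ω : D.Ω) :
    D.nd n i j X ω = ⌊(2 : ℝ) ^ X * zs D i j ω n⌋ := by
  unfold NDat2.nd zs nat NDat2.sh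
  congr 1
  rw [pow_add]
  ring

/-- Equal digits. -/
theorem dig_eq {X : ℕ} {x x' : ℝ} (h : ⌊(2 : ℝ) ^ X * x⌋ = ⌊(2 : ℝ) ^ X * x'⌋) :
    |x - x'| ≤ 1 / 2 ^ X := by
  have h1 := floor_eq_le h
  rw [← mul_sub, abs_mul, abs_of_pos (by positivity)] at h1
  rw [le_div_iff₀ (by positivity)]
  linarith

theorem dig_near {X : ℕ} {x x' C : ℝ} (h : |x - x'| ≤ C * (1 / 2 ^ X)) :
    |((⌊(2 : ℝ) ^ X * x⌋ - ⌊(2 : ℝ) ^ X * x'⌋ : ℤ) : ℝ)| ≤ C + 1 := by
  refine floor_near ?_
  rw [← mul_sub, abs_mul, abs_of_pos (by positivity)]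
  calc (2 : ℝ) ^ X * |x - x'| ≤ 2 ^ X * (C * (1 / 2 ^ X)) :=
        mul_le_mul_of_nonneg_left h (by positivity)
    _ = C := by field_simp

/-- The base digits determine the natural coordinates. -/
theorem vd_zs {i j X : ℕ} {ω ω' : D.Ω} (h : D.vd n i j X ω = D.vd n i j X ω') {r : ℕ}
    (h1 : 1 ≤ r) (h2 : r < n) : |zs D i j ω r - zs D i j ω' r| ≤ 1 / 2 ^ X := by
  obtain ⟨r', rfl⟩ : ∃ r', r = r' + 1 := ⟨r - 1, by omega⟩
  have h3 := congrFun h ⟨r', by omega⟩
  rw [vd_eq, vd_eq] at h3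
  exact dig_eq h3

/-- The number of the base digits. -/
theorem CH_vd (hO : D.Ok2 n K J a₀ w₀ z M lam gam κ C₁ q) {i j : ℕ} (hi : i ≤ M) (hj : j ≤ M)
    (X : ℕ) {β : Type} (W : D.Ω → β) :
    CH q (D.vd n i j X) W ≤ ((n - 1 : ℕ) : ℝ) * (X * Real.log 2 + 3) := by
  have h2 : (1 : ℝ) ≤ 2 ^ X := one_le_pow₀ one_le_two
  have h1 := CH_le_vec hO.isLaw.nonneg hO.isLaw.sum_one (D.vd n i j X) W (fun _ => 2 * 2 ^ X + 1)
    (fun ω ω' hω hω' _ l => by
      rw [vd_eq, vd_eq]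
      refine floor_near ?_
      rw [← mul_sub, abs_mul, abs_of_pos (by positivity)]
      have a1 := zs_le hO hi hj hω (l := (l : ℕ) + 1) (by omega) (by have := l.2; omega)
      have a2 := zs_le hO hi hj hω' (l := (l : ℕ) + 1) (by omega) (by have := l.2; omega)
      have a3 := abs_sub (zs D i j ω ((l : ℕ) + 1)) (zs D i j ω' ((l : ℕ) + 1))
      nlinarith)
  rw [Ex_const hO.isLaw.sum_one] at h1
  refine h1.trans (mul_le_mul_of_nonneg_left ?_ (Nat.cast_nonneg _))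
  have h3 : Real.log (2 * (2 * 2 ^ X + 1) + 1) ≤ Real.log (7 * 2 ^ X) :=
    Real.log_le_log (by positivity) (by linarith)
  rw [Real.log_mul (by norm_num) (by positivity), Real.log_pow] at h3
  have h4 := log_seven
  linarith

/-- Samples of one context, one time and one own leaf. -/
theorem same' (hO : D.Ok2 n K J a₀ w₀ z M lam gam κ C₁ q) {i j i' j' : ℕ}
    {ω ω' : D.Ω} (hs : D.s i' j' ω = D.s i' j' ω')
    (hc : D.c i j ω = D.c i j ω') (hT : D.T ω = D.T ω') :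
    D.Ψ i' j' ω = D.Ψ i' j' ω' ∧ D.Φ i j ω = D.Φ i j ω' ∧ D.X ω 0 = D.X ω' 0 := by
  refine ⟨?_, ?_, ?_⟩
  · unfold NDat2.Ψ
    rw [hs]
  · unfold NDat2.Φ
    rw [hc]
  · rw [hO.X_zero, hO.X_zero, hT]

theorem ss_same (hO : D.Ok2 n K J a₀ w₀ z M lam gam κ C₁ q) {i j i' j' : ℕ}
    {ω ω' : D.Ω} (hs : D.s i' j' ω = D.s i' j' ω')
    (hc : D.c i j ω = D.c i j ω') (hT : D.T ω = D.T ω') (X : ℕ) :
    D.ss n i j i' j' X ω = D.ss n i j i' j' X ω' := by
  obtain ⟨e1, e2, e3⟩ := same' hO hs hc hT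
  have hm : D.mx n i j i' j' ω = D.mx n i j i' j' ω' := by
    funext k
    unfold NDat2.mx
    rw [e1, e2]
  have hr : D.rh i j ω 0 = D.rh i j ω' 0 := by
    unfold NDat2.rh
    rw [e2, e3]
    congr 1
    exact AdxRow.evl_congr fun k hk => absurd (hO.P_tri i j _ 0 hk) (by simp)
  have hk : ∀ l, D.kp n i j i' j' ω l = D.kp n i j i' j' ω' l := by
    intro l
    unfold NDat2.kp
    rw [hm, hr, e1, e2]
  funext l α
  unfold NDat2.ss
  rw [hk]

theorem kpA_same {i j i' j' : ℕ} {ω ω' : D.Ω} {X : ℕ}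
    (h : D.ss n i j i' j' X ω = D.ss n i j i' j' X ω') (K₀ z bb : ℕ) :
    kpR D n K₀ z i j i' j' X ω = kpR D n K₀ z i j i' j' X ω' ∧
      (Gdk D n K₀ z i j i' j' X bb ω ↔ Gdk D n K₀ z i j i' j' X bb ω') ∧
      kpA D n K₀ z i j i' j' X bb ω = kpA D n K₀ z i j i' j' X bb ω' := by
  have h1 : kpR D n K₀ z i j i' j' X ω = kpR D n K₀ z i j i' j' X ω' := by
    unfold kpR
    rw [h]
  have h2 : Gdk D n K₀ z i j i' j' X bb ω ↔ Gdk D n K₀ z i j i' j' X bb ω' := by
    unfold Gdk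
    rw [h1]
  refine ⟨h1, h2, ?_⟩
  unfold kpA
  by_cases h3 : Gdk D n K₀ z i j i' j' X bb ω
  · rw [if_pos h3, if_pos (h2.1 h3), h1]
  · rw [if_neg h3, if_neg fun h4 => h3 (h2.2 h4)]

end

/-- Conversions of the base digits and of the height between the charts. -/
theorem conv (n K : ℕ) : ∃ C : ℝ, 1 ≤ C ∧
    ∀ {D : NDat2} {J a₀ w₀ z M i j : ℕ} {lam gam : ℕ → ℝ} {κ C₁ : ℝ} {q : D.Ω → ℝ},
      D.Ok2 n K J a₀ w₀ z M lam gam κ C₁ q → i ≤ M → j ≤ M → 1 ≤ n → ∀ X : ℕ,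
      CH q (Yp D n z i j X) (fun ω => (D.vd n i j X ω, (D.c i j ω, D.T ω))) ≤ C ∧
      CH q (D.vd n i j X) (fun ω => (Yp D n z i j X ω, (D.c i j ω, D.T ω))) ≤ C * (z + 1) ∧
      CH q (nuA D n i j X) (fun ω => (D.nd n i j X ω, (D.vd n i j X ω,
        (D.c i j ω, D.T ω)))) ≤ C := by
  obtain ⟨C, hC, h⟩ := charts n K
  have hl2 : Real.log 2 ≤ 1 := by
    have := Real.log_two_lt_d9
    linarith
  have hl0 : 0 ≤ Real.log (8 * C + 3) := Real.log_nonneg (by linarith)
  have hn0 : (0 : ℝ) ≤ ((n - 1 : ℕ) : ℝ) := Nat.cast_nonneg _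
  refine ⟨((n - 1 : ℕ) + 1 : ℝ) * (Real.log (8 * C + 3) + 1), ?_, ?_⟩
  · exact one_le_mul_of_one_le_of_one_le (by linarith) (by linarith)
  intro D J a₀ w₀ z M i j lam gam κ C₁ q hO hi hj hn X
  have hq := hO.isLaw
  have h2 : (0 : ℝ) < 2 ^ X := by positivity
  have hz1 : (1 : ℝ) ≤ 2 ^ z := one_le_pow₀ one_le_two
  have hlogC : Real.log (2 * (C + 1) + 1) ≤ Real.log (8 * C + 3) :=
    Real.log_le_log (by linarith) (by linarith)
  refine ⟨?_, ?_, ?_⟩
  · -- the scaled position from the digits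
    have h3 : CH q (Yp D n z i j X) (fun ω => (D.vd n i j X ω, (D.c i j ω, D.T ω))) ≤
        CH q (fun ω (l : Fin (n - 1)) => (Yp D n z i j X ω l : ℤ))
          (fun ω => (D.vd n i j X ω, (D.c i j ω, D.T ω))) := by
      refine CH_mono_left hq.nonneg fun ω ω' _ _ e => ?_
      funext l
      have h4 : ((Yp D n z i j X ω l : ℕ) : ℤ) = (Yp D n z i j X ω' l : ℕ) :=
        congrFun (Prod.ext_iff.1 e).1 l
      exact_mod_cast h4
    refine h3.trans ?_
    have h4 := CH_le_vec hq.nonneg hq.sum_one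
      (fun ω (l : Fin (n - 1)) => (Yp D n z i j X ω l : ℤ))
      (fun ω => (D.vd n i j X ω, (D.c i j ω, D.T ω))) (fun _ => C + 1)
      (fun ω ω' hω hω' e l => by
        simp only [Prod.mk.injEq] at e
        obtain ⟨e1, e2, e3⟩ := e
        have h5 := (h hO hi hj hω hω' e2 e3 (l := (l : ℕ) + 1) (ε := 1 / 2 ^ X) (by omega)
          (by have := l.2; omega) (by positivity)).1
          (fun r r1 r2 => vd_zs e1 r1 (by have := l.2; omega))
        have u1 := up_mem (z := z) (zt_le hO hi hj hω (l := (l : ℕ) + 1)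
          (by have := l.2; omega))
        have u2 := up_mem (z := z) (zt_le hO hi hj hω' (l := (l : ℕ) + 1)
          (by have := l.2; omega))
        have e4 : ((Yp D n z i j X ω l : ℕ) : ℤ) = ⌊(2 : ℝ) ^ X * up z (zt D i j ω (l + 1))⌋ :=
          Int.natCast_floor_eq_floor (mul_nonneg h2.le u1.1)
        have e5 : ((Yp D n z i j X ω' l : ℕ) : ℤ) = ⌊(2 : ℝ) ^ X * up z (zt D i j ω' (l + 1))⌋ :=
          Int.natCast_floor_eq_floor (mul_nonneg h2.le u2.1)
        rw [e4, e5]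
        refine dig_near ?_
        have e6 : up z (zt D i j ω (l + 1)) - up z (zt D i j ω' (l + 1)) =
            (zt D i j ω (l + 1) - zt D i j ω' (l + 1)) / (4 * 2 ^ z) := by
          unfold up
          ring
        rw [e6, abs_div, abs_of_pos (show (0 : ℝ) < 4 * 2 ^ z by positivity)]
        refine (div_le_self (abs_nonneg _) (by linarith)).trans h5)
    rw [Ex_const hq.sum_one] at h4
    refine h4.trans ?_
    have h5 : ((n - 1 : ℕ) : ℝ) * Real.log (2 * (C + 1) + 1) ≤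
        ((n - 1 : ℕ) : ℝ) * Real.log (8 * C + 3) := mul_le_mul_of_nonneg_left hlogC hn0
    nlinarith
  · have h4 := CH_le_vec hq.nonneg hq.sum_one (D.vd n i j X)
      (fun ω => (Yp D n z i j X ω, (D.c i j ω, D.T ω))) (fun _ => C * (4 * 2 ^ z) + 1)
      (fun ω ω' hω hω' e l => by
        simp only [Prod.mk.injEq] at e
        obtain ⟨e1, e2, e3⟩ := e
        rw [vd_eq, vd_eq]
        refine dig_near ?_
        have h5 : ∀ r, 1 ≤ r → r ≤ (l : ℕ) + 1 →
            |zt D i j ω r - zt D i j ω' r| ≤ 4 * 2 ^ z * (1 / 2 ^ X) := by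
          intro r r1 r2
          obtain ⟨r', rfl⟩ : ∃ r', r = r' + 1 := ⟨r - 1, by omega⟩
          have hr' : r' < n - 1 := by have := l.2; omega
          have y1 := Yp_near (z := z) hO hi hj hω X ⟨r', hr'⟩
          have y2 := Yp_near (z := z) hO hi hj hω' X ⟨r', hr'⟩
          rw [e1] at y1
          have e6 : zt D i j ω (r' + 1) - zt D i j ω' (r' + 1) = 4 * 2 ^ z *
              (up z (zt D i j ω (r' + 1)) - up z (zt D i j ω' (r' + 1))) := by
            unfold up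
            field_simp
            ring
          rw [e6, abs_mul, abs_of_pos (show (0 : ℝ) < 4 * 2 ^ z by positivity)]
          refine mul_le_mul_of_nonneg_left ?_ (by positivity)
          simp only at y1 y2
          rw [abs_le]
          constructor <;> linarith [y1.1, y1.2.1, y2.1, y2.2.1]
        have h6 := (h hO hi hj hω hω' e2 e3 (l := (l : ℕ) + 1) (ε := 4 * 2 ^ z * (1 / 2 ^ X))
          (by omega) (by have := l.2; omega) (by positivity)).2 h5
        refine h6.trans (le_of_eq ?_)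
        ring)
    rw [Ex_const hq.sum_one] at h4
    refine h4.trans ?_
    have h5 : Real.log (2 * (C * (4 * 2 ^ z) + 1) + 1) ≤ z + Real.log (8 * C + 3) := by
      have h6 : Real.log (2 * (C * (4 * 2 ^ z) + 1) + 1) ≤ Real.log (2 ^ z * (8 * C + 3)) :=
        Real.log_le_log (by positivity) (by nlinarith)
      rw [Real.log_mul (by positivity) (by positivity), Real.log_pow] at h6
      have h7 : (z : ℝ) * Real.log 2 ≤ z * 1 := mul_le_mul_of_nonneg_left hl2 (Nat.cast_nonneg z)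
      linarith
    have h6 := mul_le_mul_of_nonneg_left h5 hn0
    refine h6.trans ?_
    have hz0 : (0 : ℝ) ≤ z := Nat.cast_nonneg z
    have h7 : (z : ℝ) + Real.log (8 * C + 3) ≤ (Real.log (8 * C + 3) + 1) * (z + 1) := by
      nlinarith
    have h8 := mul_le_mul_of_nonneg_left h7 hn0
    have h9 : 0 ≤ (Real.log (8 * C + 3) + 1) * ((z : ℝ) + 1) := by positivity
    nlinarith
  · have h4 := CH_le_int hq.nonneg hq.sum_one (nuA D n i j X)
      (fun ω => (D.nd n i j X ω, (D.vd n i j X ω, (D.c i j ω, D.T ω)))) (fun _ => C + 1)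
      (fun ω ω' hω hω' e => by
        simp only [Prod.mk.injEq] at e
        obtain ⟨e0, e1, e2, e3⟩ := e
        have h5 := (h hO hi hj hω hω' e2 e3 (l := n) (ε := 1 / 2 ^ X) hn le_rfl
          (by positivity)).1 (fun r r1 r2 => by
            rcases Nat.lt_or_ge r n with h6 | h6
            · exact vd_zs e1 r1 h6
            · obtain rfl : r = n := by omega
              rw [nd_eq, nd_eq] at e0
              exact dig_eq e0)
        exact dig_near h5)
    rw [Ex_const hq.sum_one] at h4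
    refine h4.trans (hlogC.trans ?_)
    nlinarith

/-- The number of the values of the height at the centre given the own leaf. -/
theorem ht_few (n K K₀ : ℕ) (hn : 1 ≤ n) (hK : K * (K + 1) ^ n ≤ K₀) : ∃ C : ℝ, 1 ≤ C ∧
    ∀ {D : NDat2} {J a₀ w₀ z M i j i' j' X bb : ℕ} {lam gam : ℕ → ℝ} {κ C₁ : ℝ}
      {q : D.Ω → ℝ}, D.Ok2 n K J a₀ w₀ z M lam gam κ C₁ q → i ≤ M → j ≤ M → i' ≤ M → j' ≤ M →
      Fat D n i j i' j' → 1 ≤ X → D.g i j n + X ≤ D.g i' j' n → 1 ≤ bb →
      CH q (htA D n K₀ z i j i' j' X bb) (fun ω => (D.s i' j' ω, (D.c i j ω, D.T ω))) ≤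
        C * bb + C * X * Pool.BFL.Pb q (fun ω => ¬ Gdk D n K₀ z i j i' j' X bb ω) := by
  classical
  obtain ⟨Q, hQ⟩ : ∃ Q : ℝ, Q = 3 + (Pool.Agent.H36.KBX.bx (n - 1) K₀).card +
    (Pool.Agent.H36.KBX.bx (n - 1) K₀).card * (n * K₀) := ⟨_, rfl⟩
  have hQ0 : 3 ≤ Q := by
    rw [hQ]
    have : (0 : ℝ) ≤ (Pool.Agent.H36.KBX.bx (n - 1) K₀).card +
      (Pool.Agent.H36.KBX.bx (n - 1) K₀).card * ((n : ℝ) * K₀) := by positivity
    linarith
  have hlQ : 0 ≤ Real.log (4 * Q + 1) := Real.log_nonneg (by linarith)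
  have hl2 : Real.log 2 ≤ 1 := by
    have := Real.log_two_lt_d9
    linarith
  have hl20 : 0 < Real.log 2 := Real.log_pos one_lt_two
  refine ⟨Real.log (4 * Q + 1) + 5, by linarith, ?_⟩
  intro D J a₀ w₀ z M i j i' j' X bb lam gam κ C₁ q hO hi hj hi' hj' hF hX hg hbb
  have hq := hO.isLaw
  have h2 : (0 : ℝ) < 2 ^ X := by positivity
  have h2' : (1 : ℝ) ≤ 2 ^ X := one_le_pow₀ one_le_two
  have hb2 : (1 : ℝ) ≤ 2 ^ bb := one_le_pow₀ one_le_two
  have h1 := CH_le_int hq.nonneg hq.sum_one (htA D n K₀ z i j i' j' X bb)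
    (fun ω => (D.s i' j' ω, (D.c i j ω, D.T ω)))
    (fun ω => if Gdk D n K₀ z i j i' j' X bb ω then 2 * (Q * 2 ^ bb) else 2 * 2 ^ X + 1)
    (fun ω ω' hω hω' e => by
      simp only [Prod.mk.injEq] at e
      obtain ⟨e1, e2, e3⟩ := e
      obtain ⟨f1, f2, f3⟩ := same' hO e1 e2 e3
      obtain ⟨g1, g2, g3⟩ := kpA_same (ss_same hO e1 e2 e3 X) K₀ z bb
      have hP : P0 D n i j i' j' ω = P0 D n i j i' j' ω' := by
        unfold P0
        rw [f1, f2, f3]
      by_cases hG : Gdk D n K₀ z i j i' j' X bb ω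
      · rw [if_pos hG]
        have a1 := ht_near hO hn hi hj hi' hj' hF hX hg hK hω hG
        have a2 := ht_near hO hn hi hj hi' hj' hF hX hg hK hω' (g2.1 hG)
        rw [← hP, ← g1] at a2
        have a3 : 3 + ((Pool.Agent.H36.KBX.bx (n - 1) K₀).card : ℝ) +
            (Pool.Agent.H36.KBX.bx (n - 1) K₀).card * (n * K₀ * 2 ^ bb) ≤ Q * 2 ^ bb := by
          rw [hQ]
          have : (0 : ℝ) ≤ (Pool.Agent.H36.KBX.bx (n - 1) K₀).card := Nat.cast_nonneg _
          nlinarith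
        have b1 := abs_le.1 (a1.trans a3)
        have b2 := abs_le.1 (a2.trans a3)
        push_cast
        rw [abs_le]
        constructor <;> linarith
      · rw [if_neg hG]
        have hk : kpA D n K₀ z i j i' j' X bb ω = 0 := by
          unfold kpA
          rw [if_neg hG]
        have hk' : kpA D n K₀ z i j i' j' X bb ω' = 0 := by rw [← g3, hk]
        unfold htA nuA
        rw [hk, hk', map_zero, map_zero, mul_zero, Int.floor_zero, sub_zero, sub_zero]
        refine floor_near ?_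
        rw [← mul_sub, abs_mul, abs_of_pos h2]
        have a1 := zt_le hO hi hj hω le_rfl
        have a2 := zt_le hO hi hj hω' le_rfl
        have a3 := abs_sub (zt D i j ω n) (zt D i j ω' n)
        nlinarith)
  refine h1.trans ?_
  have h3 : ∀ ω, Real.log (2 * (if Gdk D n K₀ z i j i' j' X bb ω then 2 * (Q * 2 ^ bb)
      else 2 * 2 ^ X + 1) + 1) ≤ (Real.log (4 * Q + 1) + bb) +
        (if ¬ Gdk D n K₀ z i j i' j' X bb ω then ((X : ℝ) + 3) else 0) := by
    intro ω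
    have hbb0 : (0 : ℝ) ≤ bb := Nat.cast_nonneg _
    by_cases hG : Gdk D n K₀ z i j i' j' X bb ω
    · rw [if_pos hG, if_neg (not_not.2 hG), add_zero]
      have h4 : Real.log (2 * (2 * (Q * 2 ^ bb)) + 1) ≤ Real.log ((4 * Q + 1) * 2 ^ bb) :=
        Real.log_le_log (by positivity) (by nlinarith)
      rw [Real.log_mul (by positivity) (by positivity), Real.log_pow] at h4
      have h5 : (bb : ℝ) * Real.log 2 ≤ bb * 1 := mul_le_mul_of_nonneg_left hl2 hbb0
      linarith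
    · rw [if_neg hG, if_pos hG]
      have h4 : Real.log (2 * (2 * 2 ^ X + 1) + 1) ≤ Real.log (7 * 2 ^ X) :=
        Real.log_le_log (by positivity) (by linarith)
      rw [Real.log_mul (by norm_num) (by positivity), Real.log_pow] at h4
      have h5 : (X : ℝ) * Real.log 2 ≤ X * 1 := mul_le_mul_of_nonneg_left hl2 (Nat.cast_nonneg X)
      have h6 := log_seven
      linarith
  have h4 := Ex_mono hq.nonneg (fun ω _ => h3 ω)
  refine h4.trans ?_
  rw [Ex_add, Ex_const hq.sum_one]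
  have h5 : Ex q (fun ω => if ¬ Gdk D n K₀ z i j i' j' X bb ω then ((X : ℝ) + 3) else 0) =
      Pb q (fun ω => ¬ Gdk D n K₀ z i j i' j' X bb ω) * (X + 3) := by
    unfold Ex Pb
    rw [Finset.sum_mul]
    refine Finset.sum_congr rfl fun v _ => ?_
    by_cases hv : Gdk D n K₀ z i j i' j' X bb v
    · simp only [hv, not_true, if_false, mul_zero, zero_mul]
    · simp only [hv, not_false_eq_true, if_true]
  rw [h5]
  have h6 : 0 ≤ Pb q (fun ω => ¬ Gdk D n K₀ z i j i' j' X bb ω) :=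
    Pool.MIC.Pb_nonneg hq.nonneg _
  have h7 : (X : ℝ) + 3 ≤ (Real.log (4 * Q + 1) + 5) * X := by
    have : (1 : ℝ) ≤ X := by exact_mod_cast hX
    nlinarith
  have h8 := mul_le_mul_of_nonneg_left h7 h6
  have h9 : Real.log (4 * Q + 1) + bb ≤ (Real.log (4 * Q + 1) + 5) * bb := by
    have : (1 : ℝ) ≤ bb := by exact_mod_cast hbb
    nlinarith
  linarith

end Pool.MicA
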