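import Pool.Agent.H12.MICA.Ent

/-!
# From a cell to one context: the entropy fields

`ent_stmt : EntStmt`.
-/

set_option autoImplicit false

namespace Pool.MicA

open Finset MvPolynomial
open Pool.Agent.H49.Ent Pool.Agent.H32.Dense Pool.STK Pool.STAT Pool.MIC Pool.MIC.Frm Pool.LBL
open Pool.BFL (Pl Pb)

/-- Coarser digits. -/
theorem fl_coarse {P P' : ℕ} (h : P ≤ P') (x : ℝ) :
    ⌊(2 : ℝ) ^ P * x⌋ = ⌊(2 : ℝ) ^ P' * x⌋ / 2 ^ (P' - P) := by
  have h1 : (2 : ℝ) ^ P * x = (2 : ℝ) ^ P' * x / ((2 ^ (P' - P) : ℕ) : ℝ) := by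
    push_cast
    rw [show (2 : ℝ) ^ P' = 2 ^ (P' - P) * 2 ^ P by rw [← pow_add]; congr 1; omega]
    field_simp
  rw [h1, Int.floor_div_natCast]
  push_cast
  rfl

theorem vd_coarse {D : NDat2} {n i j X X' : ℕ} (h : X ≤ X') {ω ω' : D.Ω}
    (e : D.vd n i j X' ω = D.vd n i j X' ω') : D.vd n i j X ω = D.vd n i j X ω' := by
  funext l
  have h1 := congrFun e l
  rw [vd_eq, vd_eq] at h1 ⊢
  rw [fl_coarse h, fl_coarse h (zs D i j ω' (l + 1)), h1]

/-- The law given the whole space. -/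
theorem cond_univ {Ω : Type} [Fintype Ω] {p : Ω → ℝ} (hp : IsLaw p) :
    Pool.Agent.H49.Ent.cond p (fun _ => True) True = p := by
  classical
  funext ω
  have h1 : law p (fun _ : Ω => True) True = 1 := by
    unfold law
    simp [hp.sum_one]
  unfold Pool.Agent.H49.Ent.cond
  rw [if_pos rfl, h1, div_one]

/-- `LLV` for all the base coordinates and one own leaf. -/
theorem llv_one {D : NDat2} {n K J a₀ w₀ z M : ℕ} {lam gam : ℕ → ℝ} {κ C₁ : ℝ} {q : D.Ω → ℝ}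
    (hO : D.Ok2 n K J a₀ w₀ z M lam gam κ C₁ q) (hL : D.LLV n z M κ q) {i j i' j' U : ℕ}
    (hi : i ≤ M) (hj : j ≤ M) (hi' : i' ≤ M) (hj' : j' ≤ M) (hU : i + U ≤ M)
    (hF : Fat D n i j i' j') :
    ((n - 1 : ℕ) : ℝ) * (((U * z : ℕ) : ℝ) * Real.log 2) - κ * z ≤
      CH q (D.vd n i j (U * z)) (fun ω => (D.s i' j' ω, (D.c i j ω, D.T ω))) := by
  classical
  have h1 := hL i hi j hj U hU univ {(i', j')} (fun t ht => by
    rw [Finset.mem_singleton] at ht
    subst ht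
    exact ⟨hi', hj', fun l _ => hF ((l : ℕ) + 1) (by omega) (by have := l.2; omega)⟩)
  have hq := hO.isLaw.nonneg
  have h2 : CH q (fun ω (l : (univ : Finset (Fin (n - 1)))) => D.vd n i j (U * z) ω l)
      (fun ω => ((fun t : ({(i', j')} : Finset (ℕ × ℕ)) => D.s t.1.1 t.1.2 ω),
        (D.c i j ω, D.T ω))) ≤
      CH q (D.vd n i j (U * z))
      (fun ω => ((fun t : ({(i', j')} : Finset (ℕ × ℕ)) => D.s t.1.1 t.1.2 ω),
        (D.c i j ω, D.T ω))) := by
    refine CH_mono_left hq fun ω ω' _ _ e => ?_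
    have e1 : D.vd n i j (U * z) ω = D.vd n i j (U * z) ω' := (Prod.ext_iff.1 e).1
    funext l
    exact congrFun e1 l
  have h3 : CH q (D.vd n i j (U * z))
      (fun ω => ((fun t : ({(i', j')} : Finset (ℕ × ℕ)) => D.s t.1.1 t.1.2 ω),
        (D.c i j ω, D.T ω))) ≤
      CH q (D.vd n i j (U * z)) (fun ω => (D.s i' j' ω, (D.c i j ω, D.T ω))) := by
    refine CH_mono_cond hq fun ω ω' _ _ e => ?_
    have e1 := Prod.ext_iff.1 e
    have e2 : D.s i' j' ω = D.s i' j' ω' :=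
      congrFun e1.1 ⟨(i', j'), Finset.mem_singleton_self _⟩
    exact Prod.ext e2 e1.2
  rw [Finset.card_univ, Fintype.card_fin] at h1
  refine le_trans (le_of_eq ?_) (h1.trans (h2.trans h3))
  push_cast
  ring

theorem ent_stmt : EntStmt := by
  intro n K K₀ B R lam gam C₁ h hn hB hR hgam hC₁ hh hh1 hK
  obtain ⟨Ca, hCa, hconv⟩ := conv n K
  obtain ⟨Cb, hCb, hht⟩ := ht_few n K K₀ hn hK
  obtain ⟨c, hc⟩ : ∃ c : ℝ, c = Ca + ((n - 1 : ℕ) : ℝ) * 3 := ⟨_, rfl⟩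
  have hn0 : (0 : ℝ) ≤ ((n - 1 : ℕ) : ℝ) := Nat.cast_nonneg _
  have hc1 : 1 ≤ c := by
    rw [hc]
    linarith
  refine ⟨Cb + 10 * c + 2 * Ca + C₁ + 20, by linarith, ?_⟩
  intro J a₀ w₀ z M i j i' j' U bb κ ϖ D q hz hκ hκ1 hϖ hU hiB hUg hIn hIn' hii hjj hF hg hbb hO
    hNF hLV hLN
  obtain ⟨hi1, hi2, hj1, hj2⟩ := hIn
  obtain ⟨hi3, hi4, hj3, hj4⟩ := hIn'
  have hRU : 1 ≤ R * U := Nat.mul_pos hR hU
  have hi : i ≤ M := by omega
  have hj : j ≤ M := by omega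
  have hi' : i' ≤ M := by omega
  have hj' : j' ≤ M := by omega
  have hq := hO.isLaw
  have hzR : (1 : ℝ) ≤ z := by exact_mod_cast hz
  have hX : 1 ≤ U * z := Nat.mul_pos hU hz
  have hbbz : (z : ℝ) ≤ bb := by
    refine le_trans ?_ hbb
    exact le_mul_of_one_le_left (by linarith) (by linarith)
  have hbb1 : 1 ≤ bb := by
    have : (1 : ℝ) ≤ bb := hzR.trans hbbz
    exact_mod_cast this
  have hUB : U ≤ B * U := Nat.le_mul_of_pos_left U hB
  have hl2 : Real.log 2 ≤ 1 := by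
    have := Real.log_two_lt_d9
    linarith
  have hl0 : 0 < Real.log 2 := Real.log_pos one_lt_two
  obtain ⟨ρ, hρ⟩ : ∃ ρ, ρ = Pb q (fun ω => ¬ Gdk D n K₀ z i j i' j' (U * z) bb ω) := ⟨_, rfl⟩
  have hρ0 : 0 ≤ ρ := by
    rw [hρ]
    exact Pool.MIC.Pb_nonneg hq.nonneg _
  obtain ⟨v1, v2, v3⟩ := hconv hO hi hj hn (U * z)
  have hE : EntH q (fun ω => (D.c i j ω, D.T ω)) (D.vd n i j (U * z))
      (D.vd n i j (B * (U * z))) (D.nd n i j (U * z)) (D.s i' j') (D.ss n i j i' j' (U * z))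
      (Yp D n z i j (U * z)) (nuA D n i j (U * z)) (htA D n K₀ z i j i' j' (U * z) bb)
      (kpA D n K₀ z i j i' j' (U * z) bb) (((n - 1 : ℕ) : ℝ) * (((U * z : ℕ) : ℝ) * Real.log 2))
      (((n - 1 : ℕ) : ℝ) * (((B * (U * z) : ℕ) : ℝ) * Real.log 2))
      ((1 - h) * (((U * z : ℕ) : ℝ) * Real.log 2) + (C₁ * z + 3)) (κ * z) c (Ca * (z + 1))
      (Cb * bb + Cb * ((U * z : ℕ) : ℝ) * ρ) := {
    isLaw := hq
    VB_V := fun ω ω' _ _ e => vd_coarse (Nat.le_mul_of_pos_left _ hB) (Prod.ext_iff.1 e).1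
    S_ss := fun ω ω' _ _ e => by
      simp only [Prod.mk.injEq] at e
      exact ss_same hO e.1 e.2.1 e.2.2 _
    ss_kap := fun ω ω' _ _ e => (kpA_same (Prod.ext_iff.1 e).1 K₀ z bb).2.2
    ht_nu := fun ω ω' _ _ e => by
      simp only [Prod.mk.injEq] at e
      obtain ⟨e1, e2, e3, -⟩ := e
      unfold htA at e1
      rw [e2, e3] at e1
      linarith
    nu_ht := fun ω ω' _ _ e => by
      simp only [Prod.mk.injEq] at e
      obtain ⟨e1, e2, e3, -⟩ := e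
      unfold htA
      rw [e1, e2, e3]
    fullV := llv_one hO hLV hi hj hi' hj' (by omega) hF
    fullB := by
      have h1 := llv_one hO hLV hi hj hi' hj' (U := B * U) hiB hF
      rw [mul_assoc] at h1
      exact h1
    V_le := by
      refine (CH_vd hO hi hj (U * z) _).trans ?_
      rw [hc]
      have : ((n - 1 : ℕ) : ℝ) * (((U * z : ℕ) : ℝ) * Real.log 2 + 3) =
        ((n - 1 : ℕ) : ℝ) * (((U * z : ℕ) : ℝ) * Real.log 2) + ((n - 1 : ℕ) : ℝ) * 3 := by ring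
      rw [this]
      linarith
    VB_le := by
      refine (CH_vd hO hi hj (B * (U * z)) _).trans ?_
      rw [hc]
      have : ((n - 1 : ℕ) : ℝ) * (((B * (U * z) : ℕ) : ℝ) * Real.log 2 + 3) =
        ((n - 1 : ℕ) : ℝ) * (((B * (U * z) : ℕ) : ℝ) * Real.log 2) + ((n - 1 : ℕ) : ℝ) * 3 := by
          ring
      rw [this]
      linarith
    hgt := hLN.shp i j i' j' U hU ⟨hi1, hi2, hj1, hj2⟩ ⟨hi3, hi4, hj3, hj4⟩ (Or.inl ⟨hii, hjj⟩)
    Y_V := v1.trans (by rw [hc]; linarith [mul_nonneg hn0 (by norm_num : (0 : ℝ) ≤ 3)])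
    V_Y := v2
    nu_nd := v3.trans (by rw [hc]; linarith [mul_nonneg hn0 (by norm_num : (0 : ℝ) ≤ 3)])
    ht_S := by
      rw [hρ]
      exact hht hO hi hj hi' hj' hF hX hg hbb1
    nf := by
      have h1 := hNF i hi j hj 0 U (by omega) (by push_cast; linarith) (fun _ => True) (by
        have h2 : Pb q (fun _ => True) = 1 := by
          unfold Pool.BFL.Pb
          simp [hq.sum_one]
        rw [h2]
        exact hϖ)
      rw [cond_univ hq] at h1
      simp only [zero_add, zero_mul] at h1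
      have h2 := CH_le_add hq.nonneg (D.nd n i j (U * z)) (D.nd n i j 0)
        (fun ω => (D.vd n i j (B * (U * z)) ω, (D.c i j ω, D.T ω)))
      have h3 : CH q (D.nd n i j 0)
          (fun ω => (D.vd n i j (B * (U * z)) ω, (D.c i j ω, D.T ω))) ≤ 3 := by
        have h4 := CH_le_int hq.nonneg hq.sum_one (D.nd n i j 0)
          (fun ω => (D.vd n i j (B * (U * z)) ω, (D.c i j ω, D.T ω))) (fun _ => 3)
          (fun ω ω' hω hω' _ => by
            rw [nd_eq, nd_eq]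
            refine (floor_near (δ := 2) ?_).trans (by norm_num)
            rw [pow_zero, one_mul, one_mul]
            have a1 := zs_le hO hi hj hω hn le_rfl
            have a2 := zs_le hO hi hj hω' hn le_rfl
            have a3 := abs_sub (zs D i j ω n) (zs D i j ω' n)
            linarith)
        rw [Ex_const hq.sum_one] at h4
        refine h4.trans (le_of_eq_of_le ?_ log_seven)
        norm_num
      have h4 : CH q (D.nd n i j (U * z)) (fun ω => (D.nd n i j 0 ω,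
          (D.vd n i j (B * (U * z)) ω, (D.c i j ω, D.T ω)))) ≤
          CH q (D.nd n i j (U * z)) (fun ω => (D.nd n i j 0 ω,
          (D.vd n i j (B * (U * z)) ω, (D.s i j ω, D.T ω)))) := by
        refine CH_mono_cond hq.nonneg fun ω ω' hω hω' e => ?_
        simp only [Prod.mk.injEq] at e ⊢
        exact ⟨e.1, e.2.1, hO.s_c i hi j hj ω ω' hω hω' (Prod.ext e.2.2.1 e.2.2.2), e.2.2.2⟩
      have h5 : (1 - h) * ((U : ℝ) * z) * Real.log 2 =
          (1 - h) * (((U * z : ℕ) : ℝ) * Real.log 2) := by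
        push_cast
        ring
      rw [h5] at h1
      linarith }
  -- the relative time
  have hthr : ∀ {α : Type} (f : D.Ω → α), Det q (fun ω => (f ω, (D.c i j ω, D.T ω)))
      (fun ω => (f ω, (D.c i j ω, thr D J (w₀ + j * z) ω))) := by
    intro α f ω ω' _ _ e
    simp only [Prod.mk.injEq] at e ⊢
    refine ⟨e.1, e.2.1, ?_⟩
    unfold thr
    rw [e.2.2]
  have hthr' : ∀ {α : Type} (f : D.Ω → α),
      Det q (fun ω => (f ω, (D.c i j ω, thr D J (w₀ + j * z) ω)))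
      (fun ω => (f ω, (D.c i j ω, D.T ω))) := by
    intro α f ω ω' hω hω' e
    simp only [Prod.mk.injEq] at e ⊢
    refine ⟨e.1, e.2.1, ?_⟩
    have h1 : D.T ω / 2 ^ (J - (w₀ + j * z)) = D.T ω' / 2 ^ (J - (w₀ + j * z)) :=
      hO.c_T i hi j hj ω ω' hω hω' e.2.1
    have h2 : D.T ω % 2 ^ (J - (w₀ + j * z)) = D.T ω' % 2 ^ (J - (w₀ + j * z)) := e.2.2
    rw [← Nat.div_add_mod (D.T ω) (2 ^ (J - (w₀ + j * z))),
      ← Nat.div_add_mod (D.T ω') (2 ^ (J - (w₀ + j * z))), h1, h2]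
  have g1 := hE.full
  have g2 := hE.shape
  have g3 := hE.nfull
  have k1 : CH q (Yp D n z i j (U * z)) (fun ω => (htA D n K₀ z i j i' j' (U * z) bb ω,
      (kpA D n K₀ z i j i' j' (U * z) bb ω, (D.c i j ω, D.T ω)))) ≤
      CH q (Yp D n z i j (U * z)) (fun ω => (htA D n K₀ z i j i' j' (U * z) bb ω,
        (kpA D n K₀ z i j i' j' (U * z) bb ω, (D.c i j ω, thr D J (w₀ + j * z) ω)))) := by
    refine CH_mono_cond hq.nonneg fun ω ω' hω hω' e => ?_
    have e1 := hthr (fun ω => (htA D n K₀ z i j i' j' (U * z) bb ω,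
      kpA D n K₀ z i j i' j' (U * z) bb ω)) ω ω' hω hω'
    simp only [Prod.mk.injEq] at e e1 ⊢
    have e2 := e1 ⟨⟨e.1, e.2.1⟩, e.2.2⟩
    exact ⟨e.1, e.2.1, e2.2⟩
  have k2 : CH q (kpA D n K₀ z i j i' j' (U * z) bb)
      (fun ω => (D.c i j ω, thr D J (w₀ + j * z) ω)) ≤
      CH q (kpA D n K₀ z i j i' j' (U * z) bb) (fun ω => (D.c i j ω, D.T ω)) := by
    refine CH_mono_cond hq.nonneg fun ω ω' hω hω' e => ?_
    exact (Prod.ext_iff.1 (hthr' (fun _ => (0 : ℕ)) ω ω' hω hω' (Prod.ext rfl e))).2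
  have k3 : CH q (kpA D n K₀ z i j i' j' (U * z) bb) (fun ω => (nuA D n i j (U * z) ω,
      (Yp D n z i j (U * z) ω, (D.c i j ω, D.T ω)))) ≤
      CH q (kpA D n K₀ z i j i' j' (U * z) bb) (fun ω => (nuA D n i j (U * z) ω,
      (Yp D n z i j (U * z) ω, (D.c i j ω, thr D J (w₀ + j * z) ω)))) := by
    refine CH_mono_cond hq.nonneg fun ω ω' hω hω' e => ?_
    have e1 := hthr (fun ω => (nuA D n i j (U * z) ω, Yp D n z i j (U * z) ω)) ω ω' hω hω'
    simp only [Prod.mk.injEq] at e e1 ⊢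
    have e2 := e1 ⟨⟨e.1, e.2.1⟩, e.2.2⟩
    exact ⟨e.1, e.2.1, e2.2⟩
  have k4 : CH q (nuA D n i j (U * z)) (fun ω => (Yp D n z i j (U * z) ω,
      (D.c i j ω, thr D J (w₀ + j * z) ω))) ≤
      CH q (nuA D n i j (U * z)) (fun ω => (Yp D n z i j (U * z) ω, (D.c i j ω, D.T ω))) :=
    CH_mono_cond hq.nonneg fun ω ω' hω hω' e => hthr' _ ω ω' hω hω' e
  rw [← hρ]
  have hκz : κ * z ≤ bb := by
    have : κ * z ≤ 1 * z := mul_le_mul_of_nonneg_right hκ1 (by linarith)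
    linarith
  have hbbR : (1 : ℝ) ≤ bb := by exact_mod_cast hbb1
  have hXρ : 0 ≤ ((U : ℝ) * z) * ρ := by positivity
  have hUz : ((U * z : ℕ) : ℝ) = (U : ℝ) * z := by push_cast; ring
  have m1 : Ca * ((z : ℝ) + 1) ≤ 2 * Ca * bb := by nlinarith
  have m2 : c ≤ c * bb := le_mul_of_one_le_right (by linarith) hbbR
  have m3 : C₁ * z ≤ C₁ * bb := mul_le_mul_of_nonneg_left hbbz (by linarith)
  have m4 : 0 ≤ (10 * c + 2 * Ca + C₁ + 20) * ((U : ℝ) * z * ρ) := by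
    have : 0 ≤ 10 * c + 2 * Ca + C₁ + 20 := by linarith
    positivity
  have m5 : 0 ≤ Ca * bb := by positivity
  have m6 : 0 ≤ Cb * bb := by positivity
  have m7 : 0 ≤ C₁ * bb := by positivity
  have m8 : 0 ≤ c * bb := by positivity
  have m9 : (Cb + 10 * c + 2 * Ca + C₁ + 20) * ((U : ℝ) * z) * ρ =
      Cb * ((U * z : ℕ) : ℝ) * ρ + (10 * c + 2 * Ca + C₁ + 20) * ((U : ℝ) * z * ρ) := by
    rw [hUz]
    ring
  have m10 : (Cb + 10 * c + 2 * Ca + C₁ + 20) * (bb : ℝ) =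
      Cb * bb + 10 * (c * bb) + 2 * (Ca * bb) + C₁ * bb + 20 * bb := by ring
  rw [m9, m10]
  refine ⟨?_, ?_, ?_⟩
  · refine le_trans ?_ (g1.trans k1)
    linarith
  · refine k2.trans (g2.trans ?_)
    have : 0 ≤ Cb * ((U * z : ℕ) : ℝ) * ρ := by positivity
    linarith
  · refine k4.trans (g3.trans ?_)
    linarith

end Pool.MicA
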