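import Pool.Agent.H46.MIC.Ev

/-!
# From a cell to one context: entropy, abstract form

`b` is the context with the time, `V` the natural digits of the base, `VB` more digits, `nd` the
digits of the height, `S` the own leaf, `ss` its shape, `Y`, `nu` the position and the height in
the other chart, `ht` the height at the centre, `kap` the own shape.
-/

set_option autoImplicit false

namespace Pool.MicA

open Finset
open Pool.Agent.H49.Ent Pool.Agent.H32.Dense Pool.STK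
open Pool.MIC (CH_swl CH_swc)

variable {Ω : Type} [Fintype Ω]

/-- Mutual information is symmetric. -/
theorem mi_symm {p : Ω → ℝ} (hp : ∀ ω, 0 ≤ p ω) {S T U : Type} (X : Ω → S) (Y : Ω → T)
    (W : Ω → U) : CH p X W + CH p Y (fun ω => (X ω, W ω)) =
      CH p Y W + CH p X (fun ω => (Y ω, W ω)) := by
  rw [← CH_chain hp Y X W, ← CH_chain hp X Y W]
  exact CH_swl hp Y X W

/-- The abstract hypotheses. -/
structure EntH {β 𝒱 ℬ ν σ τ 𝒴 μ χ 𝒦 : Type} (q : Ω → ℝ) (b : Ω → β) (V : Ω → 𝒱) (VB : Ω → ℬ)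
    (nd : Ω → ν) (S : Ω → σ) (ss : Ω → τ) (Y : Ω → 𝒴) (nu : Ω → μ) (ht : Ω → χ) (kap : Ω → 𝒦)
    (M MB N κ c c' r : ℝ) : Prop where
  isLaw : IsLaw q
  VB_V : Det q (fun ω => (VB ω, b ω)) V
  S_ss : Det q (fun ω => (S ω, b ω)) ss
  ss_kap : Det q (fun ω => (ss ω, b ω)) kap
  ht_nu : Det q (fun ω => (ht ω, (Y ω, (kap ω, b ω)))) nu
  nu_ht : Det q (fun ω => (nu ω, (Y ω, (kap ω, b ω)))) ht
  fullV : M - κ ≤ CH q V (fun ω => (S ω, b ω))
  fullB : MB - κ ≤ CH q VB (fun ω => (S ω, b ω))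
  V_le : CH q V b ≤ M + c
  VB_le : CH q VB b ≤ MB + c
  hgt : CH q nd (fun ω => (V ω, b ω)) ≤ CH q nd (fun ω => (ss ω, (V ω, b ω))) + κ
  Y_V : CH q Y (fun ω => (V ω, b ω)) ≤ c
  V_Y : CH q V (fun ω => (Y ω, b ω)) ≤ c'
  nu_nd : CH q nu (fun ω => (nd ω, (V ω, b ω))) ≤ c
  ht_S : CH q ht (fun ω => (S ω, b ω)) ≤ r
  nf : CH q nd (fun ω => (VB ω, b ω)) ≤ N

section

variable {β 𝒱 ℬ ν σ τ 𝒴 μ χ 𝒦 : Type} {q : Ω → ℝ} {b : Ω → β} {V : Ω → 𝒱} {VB : Ω → ℬ}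
    {nd : Ω → ν} {S : Ω → σ} {ss : Ω → τ} {Y : Ω → 𝒴} {nu : Ω → μ} {ht : Ω → χ} {kap : Ω → 𝒦}
    {M MB N κ c c' r : ℝ}

theorem EntH.S_kap (h : EntH q b V VB nd S ss Y nu ht kap M MB N κ c c' r) :
    Det q (fun ω => (S ω, b ω)) kap := by
  intro ω ω' hω hω' e
  have e1 := h.S_ss ω ω' hω hω' e
  exact h.ss_kap ω ω' hω hω' (Prod.ext e1 (Prod.ext_iff.1 e).2)

/-- The position is full given the own leaf. -/
theorem EntH.full (h : EntH q b V VB nd S ss Y nu ht kap M MB N κ c c' r) :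
    M - (κ + c' + r) ≤ CH q Y (fun ω => (ht ω, (kap ω, b ω))) := by
  have hq := h.isLaw.nonneg
  have a1 := CH_le_add hq V Y (fun ω => (S ω, b ω))
  have a2 : CH q V (fun ω => (Y ω, (S ω, b ω))) ≤ CH q V (fun ω => (Y ω, b ω)) := by
    refine CH_mono_cond hq fun ω ω' _ _ e => ?_
    have e1 := Prod.ext_iff.1 e
    have e2 := Prod.ext_iff.1 e1.2
    exact Prod.ext e1.1 e2.2
  have a3 := CH_le_add hq Y ht (fun ω => (S ω, b ω))
  have a4 : CH q Y (fun ω => (ht ω, (S ω, b ω))) ≤ CH q Y (fun ω => (ht ω, (kap ω, b ω))) := by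
    refine CH_mono_cond hq fun ω ω' hω hω' e => ?_
    have e1 := Prod.ext_iff.1 e
    have e2 := Prod.ext_iff.1 e1.2
    exact Prod.ext e1.1 (Prod.ext (h.S_kap ω ω' hω hω' e1.2) e2.2)
  have a5 := h.fullV
  have a6 := h.V_Y
  have a7 := h.ht_S
  linarith

/-- The own shape is almost independent of the exact point. -/
theorem EntH.shape (h : EntH q b V VB nd S ss Y nu ht kap M MB N κ c c' r) :
    CH q kap b ≤ CH q kap (fun ω => (nu ω, (Y ω, b ω))) + (2 * κ + 3 * c) := by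
  have hq := h.isLaw.nonneg
  have a1 : CH q kap (fun ω => (((nu ω, Y ω), (nd ω, V ω)), b ω)) ≤
      CH q kap (fun ω => (nu ω, (Y ω, b ω))) := by
    refine CH_mono_cond hq fun ω ω' _ _ e => ?_
    simp only [Prod.mk.injEq] at e ⊢
    exact ⟨e.1.1.1, e.1.1.2, e.2⟩
  have a2 := mi_symm hq kap (fun ω => ((nu ω, Y ω), (nd ω, V ω))) b
  -- all the digits given the context
  have a3 := CH_chain hq (fun ω => (nu ω, Y ω)) (fun ω => (nd ω, V ω)) b
  have a4 := CH_chain hq nd V b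
  have a5 := CH_chain hq nu Y (fun ω => ((nd ω, V ω), b ω))
  have a6 : CH q Y (fun ω => ((nd ω, V ω), b ω)) ≤ CH q Y (fun ω => (V ω, b ω)) := by
    refine CH_mono_cond hq fun ω ω' _ _ e => ?_
    simp only [Prod.mk.injEq] at e ⊢
    exact ⟨e.1.2, e.2⟩
  have a7 : CH q nu (fun ω => (Y ω, ((nd ω, V ω), b ω))) ≤
      CH q nu (fun ω => (nd ω, (V ω, b ω))) := by
    refine CH_mono_cond hq fun ω ω' _ _ e => ?_
    simp only [Prod.mk.injEq] at e ⊢
    exact ⟨e.2.1.1, e.2.1.2, e.2.2⟩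
  -- given the shape
  have b1 : CH q (fun ω => (nd ω, V ω)) (fun ω => (kap ω, b ω)) ≤
      CH q (fun ω => ((nu ω, Y ω), (nd ω, V ω))) (fun ω => (kap ω, b ω)) := by
    refine CH_mono_left hq fun ω ω' _ _ e => ?_
    exact (Prod.ext_iff.1 (Prod.ext_iff.1 e).1).2
  have b2 := CH_chain hq nd V (fun ω => (kap ω, b ω))
  have b3 : CH q V (fun ω => (S ω, b ω)) ≤ CH q V (fun ω => (kap ω, b ω)) := by
    refine CH_mono_cond hq fun ω ω' hω hω' e => ?_
    exact Prod.ext (h.S_kap ω ω' hω hω' e) (Prod.ext_iff.1 e).2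
  have b4 : CH q nd (fun ω => (ss ω, (V ω, b ω))) ≤ CH q nd (fun ω => (V ω, (kap ω, b ω))) := by
    refine CH_mono_cond hq fun ω ω' hω hω' e => ?_
    have e1 := Prod.ext_iff.1 e
    have e2 := Prod.ext_iff.1 e1.2
    exact Prod.ext e2.1 (Prod.ext (h.ss_kap ω ω' hω hω' (Prod.ext e1.1 e2.2)) e2.2)
  have c1 := h.fullV
  have c2 := h.V_le
  have c3 := h.hgt
  have c4 := h.Y_V
  have c5 := h.nu_nd
  linarith

/-- The height is not full. -/
theorem EntH.nfull (h : EntH q b V VB nd S ss Y nu ht kap M MB N κ c c' r) :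
    CH q nu (fun ω => (Y ω, b ω)) ≤ N + (3 * κ + 6 * c + r) := by
  have hq := h.isLaw.nonneg
  have hs := h.shape
  have a1 := mi_symm hq nu kap (fun ω => (Y ω, b ω))
  have a2 : CH q kap (fun ω => (Y ω, b ω)) ≤ CH q kap b :=
    CH_mono_cond hq fun ω ω' _ _ e => (Prod.ext_iff.1 e).2
  have a3 : CH q nu (fun ω => (kap ω, (Y ω, b ω))) ≤ CH q ht (fun ω => (kap ω, (Y ω, b ω))) := by
    refine CH_mono_left hq fun ω ω' hω hω' e => ?_
    have e1 := Prod.ext_iff.1 e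
    have e2 := Prod.ext_iff.1 e1.2
    have e3 := Prod.ext_iff.1 e2.2
    exact h.ht_nu ω ω' hω hω' (Prod.ext e1.1 (Prod.ext e3.1 (Prod.ext e2.1 e3.2)))
  have a4 : CH q ht (fun ω => (kap ω, (Y ω, b ω))) ≤ CH q ht (fun ω => (kap ω, b ω)) := by
    refine CH_mono_cond hq fun ω ω' _ _ e => ?_
    have e1 := Prod.ext_iff.1 e
    have e2 := Prod.ext_iff.1 e1.2
    exact Prod.ext e1.1 e2.2
  have a5 := mi_symm hq ht VB (fun ω => (kap ω, b ω))
  have a6 : CH q VB (fun ω => (kap ω, b ω)) ≤ CH q VB b :=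
    CH_mono_cond hq fun ω ω' _ _ e => (Prod.ext_iff.1 e).2
  have a7 : CH q VB (fun ω => (ht ω, (S ω, b ω))) ≤ CH q VB (fun ω => (ht ω, (kap ω, b ω))) := by
    refine CH_mono_cond hq fun ω ω' hω hω' e => ?_
    have e1 := Prod.ext_iff.1 e
    have e2 := Prod.ext_iff.1 e1.2
    exact Prod.ext e1.1 (Prod.ext (h.S_kap ω ω' hω hω' e1.2) e2.2)
  have a8 := CH_le_add hq VB ht (fun ω => (S ω, b ω))
  have a9 : CH q ht (fun ω => (VB ω, (kap ω, b ω))) ≤
      CH q (fun ω => (nu ω, Y ω)) (fun ω => (VB ω, (kap ω, b ω))) := by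
    refine CH_mono_left hq fun ω ω' hω hω' e => ?_
    have e1 := Prod.ext_iff.1 e
    have e2 := Prod.ext_iff.1 e1.2
    have e3 := Prod.ext_iff.1 e1.1
    exact h.nu_ht ω ω' hω hω' (Prod.ext e3.1 (Prod.ext e3.2 e2.2))
  have b1 := CH_chain hq nu Y (fun ω => (VB ω, (kap ω, b ω)))
  have b2 : CH q Y (fun ω => (VB ω, (kap ω, b ω))) ≤ CH q Y (fun ω => (V ω, b ω)) := by
    refine CH_mono_cond hq fun ω ω' hω hω' e => ?_
    have e1 := Prod.ext_iff.1 e
    have e2 := Prod.ext_iff.1 e1.2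
    exact Prod.ext (h.VB_V ω ω' hω hω' (Prod.ext e1.1 e2.2)) e2.2
  have b3 : CH q nu (fun ω => (Y ω, (VB ω, (kap ω, b ω)))) ≤ CH q nu (fun ω => (VB ω, b ω)) := by
    refine CH_mono_cond hq fun ω ω' hω hω' e => ?_
    have e1 := Prod.ext_iff.1 (Prod.ext_iff.1 e).2
    have e2 := Prod.ext_iff.1 e1.2
    exact Prod.ext e1.1 e2.2
  have b4 := CH_le_add hq nu nd (fun ω => (VB ω, b ω))
  have b5 : CH q nu (fun ω => (nd ω, (VB ω, b ω))) ≤ CH q nu (fun ω => (nd ω, (V ω, b ω))) := by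
    refine CH_mono_cond hq fun ω ω' hω hω' e => ?_
    have e1 := Prod.ext_iff.1 e
    have e2 := Prod.ext_iff.1 e1.2
    exact Prod.ext e1.1 (Prod.ext (h.VB_V ω ω' hω hω' e1.2) e2.2)
  have c1 := h.fullB
  have c2 := h.VB_le
  have c4 := h.Y_V
  have c5 := h.nu_nd
  have c6 := h.ht_S
  have c7 := h.nf
  linarith

end

end Pool.MicA
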