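import Pool.Agent.H46.MicA.Out
import Pool.Agent.H20.MICA.Uni
import Pool.Agent.H12.MICA.Leaf

/-!
# The own shape is not truncated

On the natural box the own leaf and the label agree up to `exp z` natural units, so the coefficients
of the own shape in scaled coordinates are at most `2 ^ (Cb z)`.
-/

set_option autoImplicit false

namespace Pool.MicA

open Finset MvPolynomial
open Pool.Agent.H49.Ent Pool.Agent.H32.Dense Pool.STK Pool.STAT Pool.MIC Pool.MIC.Frm Pool.LBL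
open Pool.BFL (Pl Pb)

/-- Coefficients of the rounded polynomial. -/
theorem Sp_coef {k D s : ℕ} {P : Pl k} (hP : P.totalDegree ≤ D) {A : ℝ}
    (hA : ∀ α, |coeff α P| ≤ A) (α : Fin k →₀ ℕ) : |coeff α (Sp D s (rk s P))| ≤ A + 1 := by
  have hA0 : 0 ≤ A := (abs_nonneg _).trans (hA 0)
  by_cases hα : α = 0
  · subst hα
    rw [coeff_Sp']
    have h2 : rk s P 0 = 0 := by
      unfold Pool.MIC.rk
      rw [if_pos rfl]
    rw [h2]
    split_ifs
    · simp
      linarith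
    · simp
      linarith
  · have h1 := coeff_sub_Sp (s := s) hP α hα
    have h2 : (1 : ℝ) / 2 ^ s ≤ 1 := by
      rw [div_le_one (by positivity)]
      exact one_le_pow₀ one_le_two
    have h3 := hA α
    have h4 : |coeff α (Sp D s (rk s P))| ≤ |coeff α P| +
        |coeff α P - coeff α (Sp D s (rk s P))| := by
      have e1 : coeff α (Sp D s (rk s P)) =
          coeff α P - (coeff α P - coeff α (Sp D s (rk s P))) := by ring
      calc |coeff α (Sp D s (rk s P))| =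
          |coeff α P - (coeff α P - coeff α (Sp D s (rk s P)))| := by rw [← e1]
        _ ≤ _ := abs_sub _ _
    linarith

/-- Coefficients after the scaling. -/
theorem scl_coef (m D : ℕ) : ∃ N₀ : ℕ, ∀ (z : ℕ) (P : Pl m) (A : ℝ), 1 ≤ z →
    P.totalDegree ≤ D → 0 ≤ A → (∀ α, |coeff α P| ≤ A) → ∀ α, |coeff α (scl m z P)| ≤
      A * 2 ^ (N₀ * z) := by
  obtain ⟨C, hC0, hC⟩ := Pool.Agent.H36.KBX.coef_bound m D
  obtain ⟨N, hN⟩ := pow_unbounded_of_one_lt
    (C * (Pool.Agent.H36.KBX.bx m D).card) (one_lt_two : (1 : ℝ) < 2)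
  refine ⟨N + 4 * (m * D), ?_⟩
  intro z P A hz hP hA0 hA α
  have h1 : ∀ y : Fin m → ℝ, (∀ i, |y i| ≤ 1) → |eval y (scl m z P)| ≤
      (Pool.Agent.H36.KBX.bx m D).card * (A * (2 ^ (4 * z)) ^ (m * D)) := by
    intro y hy
    rw [eval_scl]
    refine Pool.Agent.H36.KBX.eval_bound P hP A (2 ^ (4 * z)) (one_le_pow₀ one_le_two) hA _
      fun i => ?_
    have h2 : |4 * 2 ^ z * y i - 2 * 2 ^ z| ≤ 6 * 2 ^ z := by
      have h3 := abs_le.1 (hy i)
      have h4 : (0 : ℝ) < 2 ^ z := by positivity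
      rw [abs_le]
      constructor <;> nlinarith
    refine h2.trans ?_
    have h5 : (6 : ℝ) ≤ 2 ^ (3 * z) := by
      calc (6 : ℝ) ≤ 2 ^ (3 * 1) := by norm_num
        _ ≤ 2 ^ (3 * z) := pow_le_pow_right₀ one_le_two (by omega)
    calc (6 : ℝ) * 2 ^ z ≤ 2 ^ (3 * z) * 2 ^ z :=
          mul_le_mul_of_nonneg_right h5 (by positivity)
      _ = 2 ^ (4 * z) := by
          rw [← pow_add]
          congr 1
          ring
  have h2 := hC (scl m z P) _ ((deg_scl _ _ _).trans hP) h1 α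
  refine h2.trans ?_
  have e1 : ((2 : ℝ) ^ (4 * z)) ^ (m * D) = 2 ^ (4 * (m * D) * z) := by
    rw [← pow_mul]
    congr 1
    ring
  rw [e1]
  have e2 : C * ((Pool.Agent.H36.KBX.bx m D).card * (A * 2 ^ (4 * (m * D) * z))) =
      (C * (Pool.Agent.H36.KBX.bx m D).card) * (A * 2 ^ (4 * (m * D) * z)) := by ring
  have e3 : A * (2 : ℝ) ^ ((N + 4 * (m * D)) * z) =
      2 ^ (N * z) * (A * 2 ^ (4 * (m * D) * z)) := by
    rw [add_mul, pow_add]
    ring
  rw [e2, e3]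
  refine mul_le_mul_of_nonneg_right ?_ (by positivity)
  refine hN.le.trans (pow_le_pow_right₀ one_le_two ?_)
  exact Nat.le_mul_of_pos_right _ (by omega)

/-- Coefficients of the own leaf in the natural chart. -/
theorem P0_coef (n K : ℕ) : ∃ C : ℝ, 0 ≤ C ∧
    ∀ (J a₀ w₀ z M : ℕ) (lam gam : ℕ → ℝ) (κ C₁ A : ℝ) (D : NDat2) (q : D.Ω → ℝ),
      D.Ok2 n K J a₀ w₀ z M lam gam κ C₁ q → ∀ (i j i' j' : ℕ) (ω : D.Ω),
      (∀ b : ℕ → ℝ, b 0 = D.X ω 0 →
        (∀ r, 1 ≤ r → r < n → |nat (D.g i j) (D.Φ i j ω) b r| ≤ 1) →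
        |eval b (D.Ψ i' j' ω n) - eval b (D.Φ i j ω n)| ≤ A / 2 ^ D.g i j n) →
      ∀ α, |coeff α (P0 D n i j i' j' ω)| ≤ C * A := by
  obtain ⟨C, hC0, hC⟩ := Pool.Agent.H36.KBX.coef_bound (n - 1) (K * (K + 1) ^ n)
  refine ⟨C, hC0, ?_⟩
  intro J a₀ w₀ z M lam gam κ C₁ A D q hO i j i' j' ω h
  refine hC _ A (deg_P0 hO i j i' j' ω) fun y hy => ?_
  unfold P0
  rw [map_mul, eval_C, eval_sl, eval_fr', map_sub]
  have ht : TriN (atT (D.X ω 0) (D.Φ i j ω)) := tri_atT (hO.P_tri i j _) _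
  have hb0 : pt (D.g i j) (atT (D.X ω 0) (D.Φ i j ω)) (ex1 y) 0 = D.X ω 0 := by
    rw [pt_eq ht, ex1_zero, zero_div, add_zero]
    unfold atT
    rw [Function.update_self, eval_C]
  have h1 := h (pt (D.g i j) (atT (D.X ω 0) (D.Φ i j ω)) (ex1 y)) hb0 (fun r hr hr' => by
    have e1 := congrFun (nat_pt (g := D.g i j) ht (ex1 y)) r
    unfold nat at e1 ⊢
    unfold atT at e1
    rw [Function.update_of_ne (by omega)] at e1
    unfold atT
    rw [e1]
    obtain ⟨r', rfl⟩ : ∃ r', r = r' + 1 := ⟨r - 1, by omega⟩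
    rw [ex1_succ _ (by omega)]
    exact hy _)
  rw [abs_mul, abs_of_pos (by positivity)]
  calc (2 : ℝ) ^ D.g i j n * _ ≤ 2 ^ D.g i j n * (A / 2 ^ D.g i j n) :=
        mul_le_mul_of_nonneg_left h1 (by positivity)
    _ = A := by field_simp

/-- **The own shape is not truncated.** -/
theorem gdk_stmt : GdkStmt := by
  intro n K K₀ lam gam C₁ hn hC₁ hK
  obtain ⟨C, hC0, hC⟩ := P0_coef n K
  obtain ⟨N₀, hN₀⟩ := scl_coef (n - 1) K₀
  obtain ⟨N, hN⟩ := pow_unbounded_of_one_lt (C + 1) (one_lt_two : (1 : ℝ) < 2)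
  refine ⟨N + 2 + N₀, ?_⟩
  intro e he
  obtain ⟨κ, z₀, hκ, h⟩ := UniP.uniOwn_thm n K lam gam C₁ 1 1 e hn hC₁ le_rfl one_pos he
  refine ⟨κ, max z₀ 1, hκ, ?_⟩
  intro J a₀ w₀ z M i j i' j' X bb D q hz hi hj hi' hj' hF hg hzX hbb hO hV
  have hz1 : 1 ≤ z := (le_max_right _ _).trans hz
  refine le_trans (Pb_supp hO.isLaw.nonneg fun ω hω hb => ?_)
    (h J a₀ w₀ z M i j i' j' D q ((le_max_left _ _).trans hz) hi hj hi' hj' hF (by omega) hO hV)
  intro hc
  refine hb fun α hα => ?_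
  have h1 := hC J a₀ w₀ z M lam gam κ C₁ (Real.exp (1 * z)) D q hO i j i' j' ω hc
  rw [kpR_eq hO hn hF (by omega) hg]
  have h2 := hN₀ z (Sp K₀ X (rk X (P0 D n i j i' j' ω))) (C * Real.exp (1 * z) + 1) hz1
    (Sp_deg _ _ _) (by positivity) (Sp_coef ((deg_P0 hO i j i' j' ω).trans hK) h1) α
  refine h2.trans ?_
  have e1 : Real.exp (1 * z) ≤ 2 ^ (2 * z) := by
    rw [one_mul, pow_mul]
    have e2 : Real.exp (z : ℝ) = Real.exp 1 ^ z := by
      rw [← Real.exp_nat_mul, mul_one]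
    rw [e2]
    refine pow_le_pow_left₀ (Real.exp_pos 1).le ?_ z
    have := Real.exp_one_lt_d9
    linarith
  have e3 : C * Real.exp (1 * z) + 1 ≤ (C + 1) * 2 ^ (2 * z) := by
    have e4 : (1 : ℝ) ≤ 2 ^ (2 * z) := one_le_pow₀ one_le_two
    nlinarith
  have e5 : (C + 1) * 2 ^ (2 * z) ≤ 2 ^ (N * z) * 2 ^ (2 * z) := by
    refine mul_le_mul_of_nonneg_right ?_ (by positivity)
    exact hN.le.trans (pow_le_pow_right₀ one_le_two (Nat.le_mul_of_pos_right _ (by omega)))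
  calc (C * Real.exp (1 * z) + 1) * 2 ^ (N₀ * z)
      ≤ (2 ^ (N * z) * 2 ^ (2 * z)) * 2 ^ (N₀ * z) :=
        mul_le_mul_of_nonneg_right (e3.trans e5) (by positivity)
    _ = 2 ^ ((N + 2 + N₀) * z) := by
        rw [← pow_add, ← pow_add]
        congr 1
        ring
    _ ≤ 2 ^ bb := pow_le_pow_right₀ one_le_two hbb

end Pool.MicA
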