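import Pool.Agent.H12.MICA.Gdk

/-!
# From the local theorem at a pair to the local theorem

`mic_of_out : MicOfOutStmt`: the pairs exist if all the base coordinates have smaller ratios than
the target, then the gluing `glu_thm` gives the new label.
-/

set_option autoImplicit false

namespace Pool.MicA

open Finset MvPolynomial
open Pool.Agent.H49.Ent Pool.Agent.H32.Dense Pool.STK Pool.STAT Pool.MIC Pool.MIC.Frm Pool.LBL
open Pool.BFL (Pl Pb)

/-- Levels at two pairs. -/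
theorem lev_le {D : NDat2} {n K J a₀ w₀ z M : ℕ} {lam gam : ℕ → ℝ} {κ C₁ : ℝ} {q : D.Ω → ℝ}
    (hO : D.Ok2 n K J a₀ w₀ z M lam gam κ C₁ q) {i₁ j₁ i₂ j₂ l c : ℕ} (h1 : i₁ ≤ M)
    (h2 : j₁ ≤ M) (h3 : i₂ ≤ M) (h4 : j₂ ≤ M) (hl : 1 ≤ l) (hln : l ≤ n)
    (h : lam l * i₂ + gam l * j₂ + 2 * C₁ + c ≤ lam l * i₁ + gam l * j₁) :
    D.g i₂ j₂ l + c * z ≤ D.g i₁ j₁ l := by
  have e1 := abs_le.1 (hO.hom i₁ h1 j₁ h2 l hl hln)
  have e2 := abs_le.1 (hO.hom i₂ h3 j₂ h4 l hl hln)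
  have hz : (0 : ℝ) ≤ z := Nat.cast_nonneg z
  have e3 := mul_le_mul_of_nonneg_right h hz
  have e4 : ((D.g i₂ j₂ l + c * z : ℕ) : ℝ) ≤ D.g i₁ j₁ l := by
    push_cast
    nlinarith [e1.1, e1.2, e2.1, e2.2]
  exact_mod_cast e4

/-- A ratio between the base and the target. -/
theorem exists_rho (n : ℕ) (lam gam : ℕ → ℝ) (hlam : ∀ l, 1 ≤ lam l) (hgn : 0 < gam n)
    (hA : CondA n lam gam) :
    ∃ ρ : ℝ, 0 < ρ ∧ lam n * ρ < gam n ∧ ∀ l ∈ Finset.Ico 1 n, gam l < lam l * ρ := by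
  have hp : ∀ l, 0 < lam l := fun l => lt_of_lt_of_le one_pos (hlam l)
  have h0 : 0 < gam n / lam n := div_pos hgn (hp n)
  have h1 : ∀ᶠ ρ in nhdsWithin (gam n / lam n) (Set.Iio (gam n / lam n)),
      ∀ l ∈ Finset.Ico 1 n, gam l < lam l * ρ := by
    rw [Filter.eventually_all_finset]
    intro l hl
    obtain ⟨l1, l2⟩ := Finset.mem_Ico.1 hl
    have h2 : gam l / lam l < gam n / lam n := by
      rw [div_lt_div_iff₀ (hp l) (hp n)]
      exact hA l l1 l2
    filter_upwards [Ioo_mem_nhdsLT h2] with ρ hρ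
    have := hρ.1
    rw [div_lt_iff₀ (hp l)] at this
    linarith
  have h2 : ∀ᶠ ρ in nhdsWithin (gam n / lam n) (Set.Iio (gam n / lam n)),
      0 < ρ ∧ ρ < gam n / lam n := by
    filter_upwards [Ioo_mem_nhdsLT h0] with ρ hρ
    exact ⟨hρ.1, hρ.2⟩
  obtain ⟨ρ, h3, h4, h5⟩ := (h1.and h2).exists
  refine ⟨ρ, h4, ?_, h3⟩
  rw [lt_div_iff₀ (hp n)] at h5
  linarith

/-- The pairs. -/
theorem exists_pair (n : ℕ) (lam gam : ℕ → ℝ) (hlam : ∀ l, 1 ≤ lam l) (hgn : 0 < gam n)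
    (hA : CondA n lam gam) (C₁ : ℝ) (s U d : ℕ) : ∃ di dj : ℕ, s ≤ di ∧ s ≤ dj ∧ d ≤ di ∧
      (∀ l, 1 ≤ l → l < n → gam l * dj + 2 * C₁ ≤ lam l * (di - d)) ∧
      lam n * (di + d) + 2 * C₁ + U ≤ gam n * dj := by
  obtain ⟨ρ, hρ, h1, h2⟩ := exists_rho n lam gam hlam hgn hA
  have key : ∀ a b : ℝ, 0 < a → ∀ᶠ x : ℕ in Filter.atTop, b ≤ a * x := by
    intro a b ha
    have h3 : Filter.Tendsto (fun x : ℕ => a * (x : ℝ)) Filter.atTop Filter.atTop :=
      Filter.Tendsto.const_mul_atTop ha tendsto_natCast_atTop_atTop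
    exact h3.eventually_ge_atTop b
  have k1 : ∀ᶠ x : ℕ in Filter.atTop, ∀ l ∈ Finset.Ico 1 n,
      2 * C₁ + lam l * d ≤ (lam l * ρ - gam l) * x := by
    rw [Filter.eventually_all_finset]
    intro l hl
    exact key _ _ (by linarith [h2 l hl])
  have k2 := key (gam n - lam n * ρ) (lam n * (1 + d) + 2 * C₁ + U) (by linarith)
  have k3 := key ρ (max s d) hρ
  have k4 : ∀ᶠ x : ℕ in Filter.atTop, s ≤ x := Filter.eventually_ge_atTop s
  obtain ⟨dj, e1, e2, e3, e4⟩ := (k1.and (k2.and (k3.and k4))).exists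
  have f1 := Nat.le_ceil (ρ * (dj : ℝ))
  have f2 := Nat.ceil_lt_add_one (a := ρ * (dj : ℝ)) (by positivity)
  refine ⟨⌈ρ * (dj : ℝ)⌉₊, dj, ?_, e4, ?_, fun l hl hl' => ?_, ?_⟩
  · have : (s : ℝ) ≤ ⌈ρ * (dj : ℝ)⌉₊ := (le_max_left _ _).trans (e3.trans f1)
    exact_mod_cast this
  · have : (d : ℝ) ≤ ⌈ρ * (dj : ℝ)⌉₊ := (le_max_right _ _).trans (e3.trans f1)
    exact_mod_cast this
  · have g1 := e1 l (Finset.mem_Ico.2 ⟨hl, hl'⟩)
    have g2 := mul_le_mul_of_nonneg_left f1 (le_trans zero_le_one (hlam l))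
    nlinarith
  · have g2 := mul_le_mul_of_nonneg_left f2.le (le_trans zero_le_one (hlam n))
    nlinarith

/-- **From the local theorem at a pair to the local theorem.** -/
theorem mic_of_out : MicOfOutStmt := by
  intro Q hQ hM n K A B R lam gam C₁ h hn hB hlam hgam hgn hC₁ hh0 hh1 hq
  obtain ⟨V, hV⟩ := exists_nat_ge (lam n + gam n)
  obtain ⟨A₂, a, K₂, c₁, hVa, hc₁, H1⟩ := hM n K B (max R 1) V lam gam C₁ h hn hB
    (le_max_right _ _) hlam hgam hgn hC₁ hh0 hh1 hq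
  obtain ⟨CG, κ₀, z₀, hκ₀, HG⟩ := Pool.STAT.Glu.glu_thm n K (K * (K + 1) ^ n) K₂ C₁ c₁ hn hc₁
    le_rfl
  obtain ⟨N₁, hN₁⟩ := exists_nat_ge (2 * C₁)
  obtain ⟨m, U, bb, d, hm, hU, H2⟩ := H1 (N₁ + A + CG)
  obtain ⟨di, dj, p1, p2, p3, p4, p5⟩ := exists_pair n lam gam hlam hgn (hQ n lam gam hq) C₁
    (max R 1 * U) U d
  obtain ⟨NU, hNU⟩ := exists_nat_ge ((U : ℝ) / gam n)
  obtain ⟨s, hs⟩ : ∃ s, s = max R 1 * U := ⟨_, rfl⟩
  rw [← hs] at p1 p2
  obtain ⟨M, hMd⟩ : ∃ M, M = (s + di) + (s + dj) + B * U + s + A₂ * m + d + NU + 2 := ⟨_, rfl⟩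
  obtain ⟨κ, ϖ, z₁, hκ, hϖ, H3⟩ := H2 M
  refine ⟨M, Pool.STAT.Glu.kN K K₂, c₁ / 4, min κ κ₀, ϖ, max z₀ z₁, by positivity,
    lt_min hκ hκ₀, hϖ, ?_⟩
  intro J a₀ w₀ z D q hz hO hLV hLN hNF hT
  have hz0 : (0 : ℝ) ≤ z := Nat.cast_nonneg z
  have hO1 := hO.mono_κ (min_le_left κ κ₀)
  have hO0 := hO.mono_κ (min_le_right κ κ₀)
  have hT1 : D.TmU J w₀ z κ q := by
    have m1 : min κ κ₀ * (z : ℝ) ≤ κ * z := mul_le_mul_of_nonneg_right (min_le_left _ _) hz0
    unfold NDat2.TmU at hT ⊢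
    linarith
  have hT0 : D.TmU J w₀ z κ₀ q := by
    have m1 : min κ κ₀ * (z : ℝ) ≤ κ₀ * z := mul_le_mul_of_nonneg_right (min_le_right _ _) hz0
    unfold NDat2.TmU at hT ⊢
    linarith
  -- the pairs
  have hdi : (d : ℝ) ≤ di := by exact_mod_cast p3
  have hown : lam n * ((s + di : ℕ) : ℝ) + gam n * (s : ℕ) + 2 * C₁ + U ≤
      lam n * (s : ℕ) + gam n * ((s + dj : ℕ) : ℝ) := by
    have h1 := hlam n
    have h2 : 0 ≤ lam n * d := mul_nonneg (by linarith) (Nat.cast_nonneg d)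
    push_cast
    nlinarith
  have g1 : D.g (s + di) s n + U * z ≤ D.g s (s + dj) n :=
    lev_le hO (by omega) (by omega) (by omega) (by omega) hn le_rfl (by
      push_cast
      push_cast at hown
      linarith)
  have hfat : Fat D n (s + di) s s (s + dj) := by
    intro l hl hl'
    have h1 := p4 l hl hl'
    have h3 := hlam l
    have h2 : 0 ≤ lam l * d := mul_nonneg (by linarith) (Nat.cast_nonneg d)
    have h4 := lev_le (c := 0) hO (i₁ := s + di) (j₁ := s) (i₂ := s) (j₂ := s + dj) (by omega)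
      (by omega) (by omega) (by omega) hl (by omega) (by
        push_cast
        nlinarith)
    omega
  have hfat' : Fat D n (s + di - d) s s (s + dj) := by
    intro l hl hl'
    have h1 := p4 l hl hl'
    have h4 := lev_le (c := 0) hO (i₁ := s + di - d) (j₁ := s) (i₂ := s) (j₂ := s + dj)
      (by omega) (by omega) (by omega) (by omega) hl (by omega) (by
        rw [Nat.cast_sub (by omega)]
        push_cast
        nlinarith)
    omega
  have hgeo : Geo D n z M B (max R 1) U d (s + di) s s (s + dj) gam := by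
    refine ⟨?_, ?_, ?_, ?_, by omega, ?_, by omega, by omega, hfat', ?_⟩
    · unfold NDat2.Inn
      rw [← hs]
      omega
    · unfold NDat2.Inn
      rw [← hs]
      omega
    · rw [← hs]
      omega
    · rw [← hs]
      omega
    · have h1 : (U : ℝ) ≤ gam n * NU := by
        rw [div_le_iff₀ hgn] at hNU
        linarith
      have h2 : (NU : ℝ) ≤ M - s := by
        rw [hMd]
        push_cast
        have : (0 : ℝ) ≤ di := Nat.cast_nonneg _
        have : (0 : ℝ) ≤ dj := Nat.cast_nonneg _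
        have : (0 : ℝ) ≤ s := Nat.cast_nonneg _
        have : (0 : ℝ) ≤ d := Nat.cast_nonneg _
        have : (0 : ℝ) ≤ B * U := by positivity
        have : (0 : ℝ) ≤ A₂ * m := by positivity
        linarith
      exact h1.trans (mul_le_mul_of_nonneg_left h2 hgn.le)
    · refine lev_le hO (by omega) (by omega) (by omega) (by omega) hn le_rfl ?_
      push_cast
      nlinarith
  obtain ⟨H, hH1, hH2⟩ := H3 J a₀ w₀ z (s + di) s s (s + dj) D q ((le_max_right _ _).trans hz)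
    hgeo hO1 (hLV.mono (min_le_left _ _)) (hLN.mono (le_max_left _ _) (min_le_left _ _)) hNF hT1
  -- the levels of the new label
  have g2 : D.g (s + di + A₂ * m) (s + A₂ * m) n + (A + CG) * z ≤
      D.g (s + di) s n + (a * m) * z := by
    have e1 := abs_le.1 (hO.hom (s + di) (by omega) s (by omega) n hn le_rfl)
    have e2 := abs_le.1 (hO.hom (s + di + A₂ * m) (by omega) (s + A₂ * m) (by omega) n hn le_rfl)
    have h1 : (lam n + gam n) * (A₂ * m) + 2 * C₁ + (A + CG) ≤ a * m := by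
      have h2 : (lam n + gam n) * ((A₂ : ℝ) * m) ≤ V * (A₂ * m) :=
        mul_le_mul_of_nonneg_right hV (by positivity)
      have h3 : (V : ℝ) * A₂ + 1 ≤ a := by exact_mod_cast hVa
      have h4 : ((N₁ : ℝ) + A + CG) ≤ m := by exact_mod_cast hm
      have h5 : ((V : ℝ) * A₂ + 1) * m ≤ a * m :=
        mul_le_mul_of_nonneg_right h3 (Nat.cast_nonneg m)
      nlinarith
    have h6 := mul_le_mul_of_nonneg_right h1 hz0
    have e4 : ((D.g (s + di + A₂ * m) (s + A₂ * m) n + (A + CG) * z : ℕ) : ℝ) ≤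
        ((D.g (s + di) s n + (a * m) * z : ℕ) : ℝ) := by
      push_cast
      push_cast at e1 e2
      nlinarith [e1.1, e1.2, e2.1, e2.2]
    exact_mod_cast e4
  have hUz : (a * m) * z ≤ U * z := Nat.mul_le_mul_right z hU
  have hful : Pool.MIC.UniD.Ful D n (s + di) s z (κ₀ * z) q
      (fun ω => (D.s s (s + dj) ω, (D.c (s + di) s ω, D.T ω))) := by
    have h1 := Pool.MIC.UniD.ful_of_llv (i := s + di) (j := s) (i' := s) (j' := s + dj)
      (κ₀ := κ₀) hLV hO.isLaw.nonneg (min_le_right κ κ₀) (U := 1) (by omega) (by omega)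
      (by omega) (by omega) hfat
    rwa [one_mul] at h1
  refine ⟨s + di + A₂ * m, by omega, s + A₂ * m, by omega, ?_⟩
  exact HG A (A₂ * m) J a₀ w₀ z M (s + di) s s (s + dj) (U * z) (bb * z) ((a * m) * z) lam gam
    D q H ((le_max_left _ _).trans hz) (by omega) (by omega) (by omega) (by omega) hfat hO0 hT0
    hful hH1 g1 hUz (g2.trans (by omega)) g2 hH2

end Pool.MicA
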