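import Pool.Agent.H12.MIC.Tms
import Pool.Agent.H46.MicA.Stm

/-!
# From a cell to one context: the times

`sep_stmt : SepStmt`, `times_stmt : TimesStmt`.
-/

set_option autoImplicit false

namespace Pool.MicA

open Finset MvPolynomial
open Pool.Agent.H49.Ent Pool.Agent.H32.Dense Pool.STK Pool.STAT Pool.MIC Pool.MIC.Frm Pool.LBL
open Pool.BFL (Pl Pb)
open Pool.K2S (cpn)

theorem times_stmt : TimesStmt := by
  intro J w₀ w z N κ D q Γ b hw hwJ hq hT hL hU hb _
  have h1 := Pool.TMS.win_low hq D.T D.ln hw hwJ hL hU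
  have hW : Det q (D.wn J w) (fun ω => D.T ω / 2 ^ (J - w)) :=
    fun ω ω' _ _ e => (Prod.ext_iff.1 e).2
  exact Pool.TMS.times_of hq (L := D.wn J w) (B := D.wn J w) (b := b) (T := D.T) (J := J) (w := w)
    hb (fun _ _ _ _ e => e) hW h1 N

theorem sep_stmt : SepStmt := by
  intro e he
  have hl := Real.log_two_gt_d9
  have hl' := Real.log_two_lt_d9
  refine ⟨e / 8, max 4 (⌈8 / e⌉₊), by positivity, ?_⟩
  intro J w₀ w z y D q hz hy hw hwy hq hT hL hU
  have h1 := Pool.TMS.win_low hq D.T D.ln hw (by omega) hL hU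
  have hW : Det q (D.wn J w) (fun ω => D.T ω / 2 ^ (J - w)) :=
    fun ω ω' _ _ e => (Prod.ext_iff.1 e).2
  have h2 := Pool.TMS.sep_of hq D.T (D.wn J w) hwy hW h1
  obtain ⟨P, hP⟩ : ∃ P, P = Pb (dbl q (D.wn J w)) (fun v : D.Ω × D.Ω =>
        |((thr D J w v.1 : ℝ) / 2 ^ (J - w)) - ((thr D J w v.2 : ℝ) / 2 ^ (J - w))| *
          2 ^ y < 1) := ⟨_, rfl⟩
  have h3 : P * (y * Real.log 2 - Real.log 3) ≤ e / 8 * z + Real.log 2 := by
    rw [hP]
    exact h2
  rw [← hP]
  have hz4 : (4 : ℝ) ≤ z := by exact_mod_cast (le_max_left _ _).trans hz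
  have hze : 8 / e ≤ z := (Nat.le_ceil _).trans (by exact_mod_cast (le_max_right _ _).trans hz)
  have hyz : (z : ℝ) ≤ y := by exact_mod_cast hy
  have hl3 : Real.log 3 ≤ 1.2 := by
    have h4 : Real.log 3 ≤ Real.log 4 := Real.log_le_log (by norm_num) (by norm_num)
    have h5 : Real.log 4 = 2 * Real.log 2 := by
      rw [show (4 : ℝ) = 2 ^ 2 by norm_num, Real.log_pow]
      norm_num
    have h6 : Real.log 3 < 1.2 := by
      rw [Real.log_lt_iff_lt_exp (by norm_num)]
      have h7 := Real.sum_le_exp_of_nonneg (x := 1.2) (by norm_num) 6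
      refine lt_of_lt_of_le ?_ h7
      norm_num [Finset.sum_range_succ, Nat.factorial]
    exact h6.le
  have h4 : (z : ℝ) / 4 ≤ y * Real.log 2 - Real.log 3 := by nlinarith
  have hP0 : 0 ≤ P := by
    rw [hP]
    exact Pool.MIC.Pb_nonneg (fun v => dbl_nonneg hq.nonneg v) _
  have h5 : P * ((z : ℝ) / 4) ≤ e / 8 * z + 1 := by
    refine (mul_le_mul_of_nonneg_left h4 hP0).trans (h3.trans ?_)
    linarith
  have h6 : 1 ≤ e / 8 * z := by
    rw [div_le_iff₀ he] at hze
    linarith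
  have hz0 : (0 : ℝ) < z := by linarith
  by_contra h7
  push Not at h7
  have h8 : e * ((z : ℝ) / 4) < P * (z / 4) := mul_lt_mul_of_pos_right h7 (by positivity)
  nlinarith

end Pool.MicA
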